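import Mathlib

/-!
A band-limited building block `q`: the shifts `q (x - i)`, `i : ℤ`, reproduce a stationary
kernel with an absolutely continuous, compactly supported spectral measure.
-/

open MeasureTheory Real Set Filter Topology
open scoped FourierTransform NNReal ENNReal

namespace Pool.Agent.MP_0502fb_pr.H21

noncomputable def bump : ContDiffBump (0 : ℝ) := ⟨1 / 16, 1 / 8, by norm_num, by norm_num⟩

noncomputable def sB (η : ℝ) : ℝ := 2 * bump.normed volume η

lemma sB_nonneg (η : ℝ) : 0 ≤ sB η := mul_nonneg (by norm_num) (bump.nonneg_normed η)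

lemma sB_neg (η : ℝ) : sB (-η) = sB η := by simp [sB, bump.normed_neg]

lemma sB_cont : Continuous sB := continuous_const.mul bump.continuous_normed

lemma sB_smooth : ContDiff ℝ (⊤ : ℕ∞) sB := contDiff_const.mul bump.contDiff_normed

lemma sB_zero {η : ℝ} (h : 1 / 8 ≤ |η|) : sB η = 0 := by
  have : η ∉ Function.support (bump.normed volume) := by
    rw [bump.support_normed_eq]
    simp only [Metric.mem_ball, dist_zero_right, Real.norm_eq_abs, not_lt]
    exact h
  simp only [Function.mem_support, not_not] at this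
  simp [sB, this]

lemma sB_supp : HasCompactSupport sB := bump.hasCompactSupport_normed.mul_left

lemma sB_int : ∫ η, sB η = 2 := by
  simp only [sB]
  rw [integral_const_mul, bump.integral_normed]; norm_num

lemma sB_mul_int {g : ℝ → ℝ} (hg : Continuous g) : Integrable (fun η => sB η * g η) :=
  (sB_cont.mul hg).integrable_of_hasCompactSupport sB_supp.mul_right

lemma sB_mul_intC {g : ℝ → ℂ} (hg : Continuous g) : Integrable (fun η => (sB η : ℂ) * g η) := by
  refine ((Complex.continuous_ofReal.comp sB_cont).mul hg).integrable_of_hasCompactSupport ?_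
  exact (sB_supp.comp_left (g := fun x : ℝ => (x : ℂ)) (by simp)).mul_right

noncomputable def qB (v : ℝ) : ℝ := ∫ η, sB η * cos (2 * π * η * v)

lemma odd_int (g : ℝ → ℝ) (hg : ∀ η, g (-η) = g η) (t : ℝ) :
    ∫ η, g η * sin (2 * π * η * t) = 0 := by
  have h := integral_neg_eq_self (fun η => g η * sin (2 * π * η * t)) volume
  have h2 : ∀ η, g (-η) * sin (2 * π * (-η) * t) = -(g η * sin (2 * π * η * t)) := by
    intro η
    rw [hg, show 2 * π * (-η) * t = -(2 * π * η * t) by ring, sin_neg]; ring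
  simp only [h2, integral_neg] at h
  linarith

lemma qB_complex (v : ℝ) :
    ∫ η, (sB η : ℂ) * Complex.exp (((2 * π * η * v : ℝ) : ℂ) * Complex.I) = (qB v : ℂ) := by
  have h1 : ∀ η : ℝ, (sB η : ℂ) * Complex.exp (((2 * π * η * v : ℝ) : ℂ) * Complex.I)
      = ((sB η * cos (2 * π * η * v) : ℝ) : ℂ)
        + ((sB η * sin (2 * π * η * v) : ℝ) : ℂ) * Complex.I := by
    intro η
    rw [Complex.exp_mul_I, ← Complex.ofReal_cos, ← Complex.ofReal_sin]
    push_cast; ring
  simp only [h1]
  rw [integral_add, integral_mul_const, integral_complex_ofReal, integral_complex_ofReal,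
    odd_int sB sB_neg v]
  · simp [qB]
  · exact (sB_mul_int (by fun_prop)).ofReal
  · exact ((sB_mul_int (by fun_prop)).ofReal).mul_const _

lemma qB_decay : Continuous qB ∧ ∃ C : ℝ, 1 ≤ C ∧ ∀ v, |qB v| ≤ C / (1 + |v|) ^ 4 := by
  have hs : HasCompactSupport (fun η => (sB η : ℂ)) :=
    sB_supp.comp_left (g := fun x : ℝ => (x : ℂ)) (by simp)
  have hc : ContDiff ℝ (⊤ : ℕ∞) (fun η => (sB η : ℂ)) := Complex.ofRealCLM.contDiff.comp sB_smooth
  set S := hs.toSchwartzMap hc with hS
  have key : ∀ v, (𝓕 S : SchwartzMap ℝ ℂ) (-v) = (qB v : ℂ) := by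
    intro v
    rw [SchwartzMap.fourier_coe, Real.fourier_real_eq_integral_exp_smul, ← qB_complex]
    refine integral_congr_ae (Eventually.of_forall fun η => ?_)
    simp only [hS, HasCompactSupport.toSchwartzMap_toFun, smul_eq_mul]
    rw [mul_comm, show -2 * π * η * -v = 2 * π * η * v by ring]
  constructor
  · have : qB = fun v => ((𝓕 S : SchwartzMap ℝ ℂ) (-v)).re := by
      funext v; rw [key]; simp
    rw [this]
    exact Complex.continuous_re.comp ((𝓕 S : SchwartzMap ℝ ℂ).continuous.comp continuous_neg)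
  · obtain ⟨C, hC⟩ : ∃ C : ℝ, ∀ x : ℝ, (1 + ‖x‖) ^ 4 * ‖(𝓕 S : SchwartzMap ℝ ℂ) x‖ ≤ C := by
      have := fun x => SchwartzMap.one_add_le_sup_seminorm_apply (𝕜 := ℂ) (m := (4, 0)) (k := 4)
        (n := 0) le_rfl le_rfl (𝓕 S : SchwartzMap ℝ ℂ) x
      simp only [norm_iteratedFDeriv_zero] at this
      exact ⟨_, this⟩
    refine ⟨max C 1, le_max_right _ _, fun v => ?_⟩
    have h := hC (-v)
    rw [key, Complex.norm_real, Real.norm_eq_abs, Real.norm_eq_abs, abs_neg] at h
    rw [le_div_iff₀ (by positivity)]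
    calc |qB v| * (1 + |v|) ^ 4 = (1 + |v|) ^ 4 * |qB v| := mul_comm _ _
      _ ≤ C := h
      _ ≤ max C 1 := le_max_left _ _

lemma qB_ge {v : ℝ} (hv : |v| ≤ 1) : 1 ≤ qB v := by
  have h1 : ∫ η, sB η * (1 / 2) = 1 := by rw [integral_mul_const, sB_int]; norm_num
  rw [← h1]
  refine integral_mono (sB_mul_int continuous_const) (sB_mul_int (by fun_prop)) fun η => ?_
  by_cases h : 1 / 8 ≤ |η|
  · simp [sB_zero h]
  · refine mul_le_mul_of_nonneg_left ?_ (sB_nonneg η)
    push Not at h
    have h2 : |2 * π * η * v| ≤ 1 := by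
      rw [abs_mul, abs_mul, abs_of_pos (by positivity : 0 < 2 * π)]
      have := pi_le_four
      have h3 : 2 * π * |η| ≤ 1 := by nlinarith [abs_nonneg η, pi_pos]
      calc 2 * π * |η| * |v| ≤ 1 * 1 := by gcongr
        _ = 1 := by norm_num
    have h3 := Real.one_sub_sq_div_two_le_cos (x := 2 * π * η * v)
    have h4 : (2 * π * η * v) ^ 2 ≤ 1 := by
      rw [← sq_abs]; nlinarith [abs_nonneg (2 * π * η * v)]
    linarith

lemma interval_eq {E : Type*} [NormedAddCommGroup E] [NormedSpace ℝ E] (g : ℝ → E)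
    (hg : ∀ η, 1 / 8 ≤ |η| → g η = 0) : ∫ η in (-1 / 2 : ℝ)..(1 / 2), g η = ∫ η, g η := by
  refine intervalIntegral.integral_eq_integral_of_support_subset fun η hη => ?_
  by_contra h
  apply hη
  apply hg
  simp only [mem_Ioc, not_and_or, not_lt, not_le] at h
  rcases h with h | h
  · rw [abs_of_neg (by linarith)]; linarith
  · rw [abs_of_pos (by linarith)]; linarith

lemma parseval (x y e : ℝ) :
    HasSum (fun i : ℤ => (qB (x - i) + e * qB (y - i)) ^ 2)
      (∫ η, sB η ^ 2 * (1 + e ^ 2 + 2 * e * cos (2 * π * η * (x - y)))) := by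
  set g : ℝ → ℂ := fun η => (sB η : ℂ) * (Complex.exp (((2 * π * η * x : ℝ) : ℂ) * Complex.I)
    + e * Complex.exp (((2 * π * η * y : ℝ) : ℂ) * Complex.I)) with hg
  have hgc : Continuous g := by
    have := sB_cont
    simp only [hg]; fun_prop
  have hab : (-1 / 2 : ℝ) < 1 / 2 := by norm_num
  have hL2 : MemLp g 2 (volume.restrict (Ioc (-1 / 2 : ℝ) (1 / 2))) := by
    obtain ⟨B, hB⟩ := (isCompact_Icc (a := (-1 / 2 : ℝ)) (b := 1 / 2)).exists_bound_of_continuousOn
      hgc.continuousOn
    refine MemLp.of_bound hgc.aestronglyMeasurable B ?_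
    filter_upwards [ae_restrict_mem measurableSet_Ioc] with η hη using hB η (Ioc_subset_Icc_self hη)
  have H := hasSum_sq_fourierCoeffOn hab hL2
  have hcoef : ∀ i : ℤ, fourierCoeffOn hab g i = ((qB (x - i) + e * qB (y - i) : ℝ) : ℂ) := by
    intro i
    rw [fourierCoeffOn_eq_integral]
    have h1 : ∀ η : ℝ, fourier (-i) (η : AddCircle ((1 / 2 : ℝ) - -1 / 2)) • g η
        = (sB η : ℂ) * Complex.exp (((2 * π * η * (x - i) : ℝ) : ℂ) * Complex.I)
          + e * ((sB η : ℂ) * Complex.exp (((2 * π * η * (y - i) : ℝ) : ℂ) * Complex.I)) := by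
      intro η
      rw [fourier_coe_apply, smul_eq_mul, hg]
      have e1 : Complex.exp (((2 * π * η * (x - i) : ℝ) : ℂ) * Complex.I)
          = Complex.exp (2 * π * Complex.I * ((-i : ℤ) : ℂ) * η / (((1 / 2 : ℝ) - -1 / 2 : ℝ) : ℂ))
            * Complex.exp (((2 * π * η * x : ℝ) : ℂ) * Complex.I) := by
        rw [← Complex.exp_add]; congr 1; push_cast; ring
      have e2 : Complex.exp (((2 * π * η * (y - i) : ℝ) : ℂ) * Complex.I)
          = Complex.exp (2 * π * Complex.I * ((-i : ℤ) : ℂ) * η / (((1 / 2 : ℝ) - -1 / 2 : ℝ) : ℂ))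
            * Complex.exp (((2 * π * η * y : ℝ) : ℂ) * Complex.I) := by
        rw [← Complex.exp_add]; congr 1; push_cast; ring
      rw [e1, e2]; ring
    simp only [h1]
    rw [interval_eq _ (fun η hη => by simp [sB_zero hη]), integral_add, integral_const_mul,
      qB_complex, qB_complex]
    · norm_num
    · exact sB_mul_intC (by fun_prop)
    · exact (sB_mul_intC (by fun_prop)).const_mul _
  have hnorm : ∀ η, ‖g η‖ ^ 2 = sB η ^ 2 * (1 + e ^ 2 + 2 * e * cos (2 * π * η * (x - y))) := by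
    intro η
    rw [hg]
    simp only [norm_mul, mul_pow, Complex.norm_real, Real.norm_eq_abs, sq_abs]
    congr 1
    rw [Complex.sq_norm, Complex.normSq_apply, show 2 * π * η * (x - y) = 2 * π * η * x - 2 * π * η * y
      by ring, cos_sub]
    simp only [Complex.add_re, Complex.add_im, Complex.exp_ofReal_mul_I_re,
      Complex.exp_ofReal_mul_I_im, Complex.re_ofReal_mul, Complex.im_ofReal_mul]
    nlinarith [sin_sq_add_cos_sq (2 * π * η * x), sin_sq_add_cos_sq (2 * π * η * y)]
  simp only [hcoef, hnorm, Complex.norm_real, Real.norm_eq_abs, sq_abs] at H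
  rw [interval_eq _ (fun η hη => by simp [sB_zero hη])] at H
  convert H using 1
  norm_num

lemma sq_int {g : ℝ → ℝ} (hg : Continuous g) : Integrable (fun η => sB η ^ 2 * g η) := by
  have := sB_mul_int (sB_cont.mul hg)
  refine this.congr (Eventually.of_forall fun η => ?_)
  simp only [Pi.mul_apply]; ring

lemma kernel (x y : ℝ) :
    HasSum (fun i : ℤ => qB (x - i) * qB (y - i))
      (∫ η, sB η ^ 2 * cos (2 * π * η * (x - y))) := by
  have h := ((parseval x y 1).sub (parseval x y (-1))).mul_left (1 / 4)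
  rw [← integral_sub (sq_int (by fun_prop)) (sq_int (by fun_prop)), ← integral_const_mul] at h
  have e1 : (fun i : ℤ => qB (x - i) * qB (y - i)) = fun i : ℤ =>
      1 / 4 * ((qB (x - i) + 1 * qB (y - i)) ^ 2 - (qB (x - i) + -1 * qB (y - i)) ^ 2) := by
    funext i; ring
  have e2 : (fun η => sB η ^ 2 * cos (2 * π * η * (x - y))) = fun η =>
      1 / 4 * (sB η ^ 2 * (1 + 1 ^ 2 + 2 * 1 * cos (2 * π * η * (x - y))) -
          sB η ^ 2 * (1 + (-1) ^ 2 + 2 * -1 * cos (2 * π * η * (x - y)))) := by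
    funext η; ring
  rw [e1, e2]; exact h

lemma ac_affine {ν : Measure ℝ} (hν : ν ≪ volume) {a : ℝ} (ha : a ≠ 0) (b : ℝ) :
    ν.map (fun η => b + a * η) ≪ volume := by
  have hm : Measurable fun η : ℝ => b + a * η := by fun_prop
  refine (hν.map hm).trans ?_
  have : (fun η : ℝ => b + a * η) = (fun t => b + t) ∘ (fun η => a * η) := rfl
  rw [this, ← Measure.map_map (by fun_prop) (by fun_prop), Real.map_volume_mul_left ha,
    Measure.map_smul, map_add_left_eq_self]
  exact Measure.smul_absolutelyContinuous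

/-- The building block. -/
theorem exists_block : ∃ (q : ℝ → ℝ) (ν : Measure ℝ) (C : ℝ), Continuous q ∧ 1 ≤ C ∧
    (∀ v, |q v| ≤ C / (1 + |v|) ^ 4) ∧ (∀ v, |v| ≤ 1 → 1 ≤ q v) ∧ IsFiniteMeasure ν ∧
    ν ≪ volume ∧ (∀ᵐ η ∂ν, |η| ≤ 1) ∧ (∀ t, ∫ η, sin (η * t) ∂ν = 0) ∧
    ∀ x y, HasSum (fun i : ℤ => q (x - i) * q (y - i)) (∫ η, cos (η * (x - y)) ∂ν) := by
  obtain ⟨hc, C, hC, hd⟩ := qB_decay
  set ρ : ℝ → ℝ≥0 := fun η => (sB η ^ 2).toNNReal with hρ
  have hρm : Measurable ρ := (sB_cont.pow 2).measurable.real_toNNReal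
  set ν0 : Measure ℝ := volume.withDensity (fun η => (ρ η : ℝ≥0∞)) with hν0
  have hac : ν0 ≪ volume := withDensity_absolutelyContinuous _ _
  have hint : ∀ g : ℝ → ℝ, Continuous g →
      ∫ η, g η ∂(ν0.map fun η => 0 + 2 * π * η) = ∫ η, sB η ^ 2 * g (2 * π * η) := by
    intro g hg
    rw [integral_map (by fun_prop) hg.aestronglyMeasurable, hν0,
      integral_withDensity_eq_integral_smul hρm]
    congr 1; funext η
    simp [hρ, NNReal.smul_def, Real.coe_toNNReal _ (sq_nonneg (sB η))]
  have hfin : IsFiniteMeasure ν0 := by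
    have h := sq_int (g := fun _ => 1) continuous_const
    simp only [mul_one] at h
    exact isFiniteMeasure_withDensity_ofReal h.2
  refine ⟨qB, ν0.map fun η => 0 + 2 * π * η, C, hc, hC, hd, fun v hv => qB_ge hv, inferInstance,
    ac_affine hac (by positivity) 0, ?_, fun t => ?_, fun x y => ?_⟩
  · rw [ae_map_iff (by fun_prop) (measurableSet_le (by fun_prop) (by fun_prop)), hν0,
      ae_withDensity_iff (by fun_prop)]
    refine Eventually.of_forall fun η hη => ?_
    by_contra h
    apply hη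
    have h2 : 1 / 8 ≤ |η| := by
      push Not at h
      rw [zero_add, abs_mul, abs_of_pos (by positivity : 0 < 2 * π)] at h
      have := pi_le_four
      nlinarith [abs_nonneg η]
    simp [hρ, sB_zero h2]
  · rw [hint _ (by fun_prop)]
    exact odd_int (fun η => sB η ^ 2) (fun η => by rw [sB_neg]) t
  · rw [hint _ (by fun_prop)]
    exact kernel x y

end Pool.Agent.MP_0502fb_pr.H21
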