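import Pool.Agent.MP_0502fb_pr.H21.Gauss

/-!
The Gaussian field given by a series, and the criterion for non-convergence.
-/

open MeasureTheory ProbabilityTheory Real Set Filter Topology
open scoped NNReal ENNReal BoundedContinuousFunction

namespace Pool.Agent.MP_0502fb_pr.H21

variable {ι : Type}

/-- The variance of a finite linear combination of values of the field. -/
noncomputable def QF {α : Type} (μ : Measure ℝ) (s : Finset α) (a x : α → ℝ) : ℝ :=
  ∑ l ∈ s, ∑ m ∈ s, a l * a m * ∫ η, cos (η * (x l - x m)) ∂μ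

lemma int_bdd {E : Type} [NormedAddCommGroup E] (μ : Measure ℝ) [IsFiniteMeasure μ] {g : ℝ → E}
    (hg : Continuous g) (B : ℝ) (hB : ∀ η, ‖g η‖ ≤ B) : Integrable g μ :=
  Integrable.of_bound hg.aestronglyMeasurable B (Eventually.of_forall hB)

lemma int_cos (μ : Measure ℝ) [IsFiniteMeasure μ] (t : ℝ) :
    Integrable (fun η => cos (η * t)) μ :=
  int_bdd μ (by fun_prop) 1 fun _ => abs_cos_le_one _

lemma int_sin (μ : Measure ℝ) [IsFiniteMeasure μ] (t : ℝ) :
    Integrable (fun η => sin (η * t)) μ :=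
  int_bdd μ (by fun_prop) 1 fun _ => abs_sin_le_one _

lemma QF_eq {α : Type} (μ : Measure ℝ) [IsFiniteMeasure μ] (s : Finset α) (a x : α → ℝ) :
    QF μ s a x = ∫ η, ((∑ l ∈ s, a l * cos (η * x l)) ^ 2
      + (∑ l ∈ s, a l * sin (η * x l)) ^ 2) ∂μ := by
  have e : ∀ η, (∑ l ∈ s, a l * cos (η * x l)) ^ 2 + (∑ l ∈ s, a l * sin (η * x l)) ^ 2
      = ∑ l ∈ s, ∑ m ∈ s, a l * a m * cos (η * (x l - x m)) := by
    intro η
    rw [sq, sq, Finset.sum_mul_sum, Finset.sum_mul_sum, ← Finset.sum_add_distrib]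
    refine Finset.sum_congr rfl fun l _ => ?_
    rw [← Finset.sum_add_distrib]
    refine Finset.sum_congr rfl fun m _ => ?_
    rw [mul_sub, cos_sub]; ring
  simp only [e, QF]
  rw [integral_finsetSum _ fun l _ => integrable_finsetSum _ fun m _ => (int_cos μ _).const_mul _]
  refine Finset.sum_congr rfl fun l _ => ?_
  rw [integral_finsetSum _ fun m _ => (int_cos μ _).const_mul _]
  refine Finset.sum_congr rfl fun m _ => ?_
  rw [integral_const_mul]

lemma lin_law [Countable ι] {φ : ι → C(ℝ, ℝ)} {μ : Measure ℝ}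
    (hK : ∀ x y, HasSum (fun c => φ c x * φ c y) (∫ η, cos (η * (x - y)) ∂μ))
    {f : (ι → ℝ) → C(ℝ, ℝ)} (hf : ∀ᵐ ξ ∂PG ι, ∀ x, HasSum (fun c => ξ c * φ c x) (f ξ x))
    {α : Type} (s : Finset α) (a x : α → ℝ) :
    (PG ι).map (fun ξ => ∑ l ∈ s, a l * f ξ (x l)) = gaussianReal 0 (QF μ s a x).toNNReal := by
  refine law_tsum (β := fun c => ∑ l ∈ s, a l * φ c (x l)) ?_ ?_
  · filter_upwards [hf] with ξ hξ
    have h := hasSum_sum (s := s) fun l _ => (hξ (x l)).mul_left (a l)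
    have e : (fun c => ξ c * ∑ l ∈ s, a l * φ c (x l))
        = fun c => ∑ l ∈ s, a l * (ξ c * φ c (x l)) := by
      funext c; rw [Finset.mul_sum]; exact Finset.sum_congr rfl fun l _ => by ring
    rw [e]; exact h
  · have h := hasSum_sum (s := s) fun l _ => hasSum_sum (s := s) fun m _ =>
      (hK (x l) (x m)).mul_left (a l * a m)
    have e : (fun c => (∑ l ∈ s, a l * φ c (x l)) ^ 2)
        = fun c => ∑ l ∈ s, ∑ m ∈ s, a l * a m * (φ c (x l) * φ c (x m)) := by
      funext c; rw [sq, Finset.sum_mul_sum]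
      exact Finset.sum_congr rfl fun l _ => Finset.sum_congr rfl fun m _ => by ring
    rw [e]; exact h

lemma moments {Ω : Type} [MeasurableSpace Ω] {P : Measure Ω} {Y : Ω → ℝ} {v : ℝ≥0}
    (h : P.map Y = gaussianReal 0 v) :
    MemLp Y 2 P ∧ ∫ ω, Y ω ∂P = 0 ∧ ∫ ω, Y ω ^ 2 ∂P = v := by
  have hm : AEMeasurable Y P := aemeasurable_of_map_neZero (by rw [h]; infer_instance)
  have h0 : ∫ ω, Y ω ∂P = 0 := by
    have := integral_id_gaussianReal (μ := 0) (v := v)
    rwa [← h, integral_map hm (by fun_prop)] at this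
  refine ⟨?_, h0, ?_⟩
  · have := memLp_id_gaussianReal (μ := 0) (v := v) 2
    rw [← h] at this
    exact (memLp_map_measure_iff (by fun_prop) hm).1 this
  · have := variance_id_gaussianReal (μ := 0) (v := v)
    rw [← h, variance_id_map hm, variance_of_integral_eq_zero hm h0] at this
    exact this

/-- The criterion. -/
theorem abstract_main [Countable ι] (φ : ι → C(ℝ, ℝ)) (b : ι → ℝ) (hb : Summable b)
    (hφ : ∀ c x, |φ c x| ≤ b c * (1 + |x|) ^ 2) (μ : Measure ℝ) [IsFiniteMeasure μ]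
    (hK : ∀ x y, HasSum (fun c => φ c x * φ c y) (∫ η, cos (η * (x - y)) ∂μ))
    (hsin : ∀ t, ∫ η, sin (η * t) ∂μ = 0) (hpos : 0 < μ.real univ)
    (hpers : ∀ T0 : ℝ, ∃ (T c : ℝ) (G : Set (ι → ℝ)) (s : Finset (ℕ × ℤ)) (a x : ℕ × ℤ → ℝ),
      T0 ≤ T ∧ 0 ≤ c ∧ exp (-c) ≤ (PG ι).real G ∧
      (∀ ξ ∈ G, ∀ z, |z| ≤ T → ∀ y, HasSum (fun c => ξ c * φ c z) y → 0 ≤ y) ∧
      (∀ g : ℝ → ℝ, (∀ z, |z| ≤ T → 0 ≤ g z) → g 0 ≤ ∑ l ∈ s, a l * g (x l)) ∧
      (c + 1) * QF μ s a x ≤ 2) :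
    ∃ f : (ι → ℝ) → C(ℝ, ℝ), @Measurable _ _ _ (borel C(ℝ, ℝ)) f ∧
      IsGaussianProcess (fun (x : ℝ) ω => f ω x) (PG ι) ∧
      (∀ x, ∫ ω, f ω x ∂PG ι = 0) ∧
      (∀ (I : Finset ℝ) (h : ℝ), (PG ι).map (fun ω (x : I) => f ω (x + h))
        = (PG ι).map (fun ω (x : I) => f ω x)) ∧
      (∀ x y, ((∫ ω, f ω x * f ω y ∂PG ι : ℝ) : ℂ)
        = ∫ l : ℝ, Complex.exp (Complex.I * l * (x - y)) ∂μ) ∧
      (∀ T : ℝ, 0 < T → 0 < PG ι {ω | ∀ x ∈ Icc (-T) T, 0 ≤ f ω x}) ∧
      ∃ m : ℝ → C(ℝ, ℝ),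
        (∀ T : ℝ, 0 < T → ∀ x,
          Integrable (fun ω => f ω x) ((PG ι)[|{ω | ∀ x ∈ Icc (-T) T, 0 ≤ f ω x}]) ∧
          m T x = ∫ ω, f ω x ∂((PG ι)[|{ω | ∀ x ∈ Icc (-T) T, 0 ≤ f ω x}])) ∧
        ¬ ∀ Φ : C(ℝ, ℝ) →ᵇ ℝ,
          Tendsto (fun T : ℝ => ∫ ω, Φ (f ω - m T) ∂((PG ι)[|{ω | ∀ x ∈ Icc (-T) T, 0 ≤ f ω x}]))
            atTop (𝓝 (∫ ω, Φ (f ω) ∂PG ι)) := by
  obtain ⟨f, Z, hfm, hZ, hf⟩ := exists_field φ b hb hφ
  have hf1 : ∀ᵐ ξ ∂PG ι, ∀ x, HasSum (fun c => ξ c * φ c x) (f ξ x) :=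
    hf.mono fun ξ h x => (h x).1
  let _ : MeasurableSpace C(ℝ, ℝ) := borel _
  have : BorelSpace C(ℝ, ℝ) := ⟨rfl⟩
  have hev : ∀ x, Measurable fun ω => f ω x := fun x =>
    (continuous_eval_const x).measurable.comp hfm
  set A : ℝ → Set (ι → ℝ) := fun T => {ω | ∀ x ∈ Icc (-T) T, 0 ≤ f ω x} with hA
  have hAm : ∀ T, MeasurableSet (A T) := by
    intro T
    have hc : IsClosed {g : C(ℝ, ℝ) | ∀ x ∈ Icc (-T) T, 0 ≤ g x} := by
      simp only [ofPred_forall]
      exact isClosed_iInter fun x => isClosed_iInter fun _ =>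
        isClosed_le continuous_const (continuous_eval_const x)
    exact hfm hc.measurableSet
  have hL : ∀ (I : Finset ℝ) (h : ℝ) (L : (I → ℝ) →L[ℝ] ℝ),
      ((PG ι).map (fun ω (x : I) => f ω (x + h))).map L = gaussianReal 0
        (QF μ Finset.univ (fun i : I => L fun j => if i = j then 1 else 0)
          (fun i : I => (i : ℝ))).toNNReal := by
    classical
    intro I h L
    rw [Measure.map_map (by fun_prop) (measurable_pi_lambda _ fun x => hev _)]
    have e : (L ∘ fun ω (x : I) => f ω (x + h)) = fun ω => ∑ i : I,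
        (L fun j => if i = j then 1 else 0) * f ω (i + h) := by
      funext ω
      have := LinearMap.pi_apply_eq_sum_univ (L : (I → ℝ) →ₗ[ℝ] ℝ) (fun x : I => f ω (x + h))
      simp only [ContinuousLinearMap.coe_coe, smul_eq_mul] at this
      simp only [Function.comp_apply, this]
      exact Finset.sum_congr rfl fun i _ => mul_comm _ _
    rw [e, lin_law hK hf1]
    simp only [QF, add_sub_add_right_eq_sub]
  have hlaw : ∀ x y e : ℝ, (PG ι).map (fun ω => f ω x + e * f ω y) = gaussianReal 0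
      ((1 + e ^ 2) * μ.real univ + 2 * e * ∫ η, cos (η * (x - y)) ∂μ).toNNReal ∧
      0 ≤ (1 + e ^ 2) * μ.real univ + 2 * e * ∫ η, cos (η * (x - y)) ∂μ := by
    intro x y e
    have h1 := ((hK x x).add ((hK y y).mul_left (e ^ 2))).add ((hK x y).mul_left (2 * e))
    simp only [sub_self, mul_zero, cos_zero, integral_const, smul_eq_mul, mul_one] at h1
    have h2 : HasSum (fun c => (φ c x + e * φ c y) ^ 2)
        ((1 + e ^ 2) * μ.real univ + 2 * e * ∫ η, cos (η * (x - y)) ∂μ) := by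
      have e1 : (fun c => (φ c x + e * φ c y) ^ 2) = fun c =>
          φ c x * φ c x + e ^ 2 * (φ c y * φ c y) + 2 * e * (φ c x * φ c y) := by
        funext c; ring
      rw [e1, add_mul, one_mul]; exact h1
    refine ⟨law_tsum ?_ h2, h2.nonneg fun c => sq_nonneg _⟩
    filter_upwards [hf1] with ξ hξ
    have h3 := (hξ x).add ((hξ y).mul_left e)
    have e1 : (fun c => ξ c * (φ c x + e * φ c y))
        = fun c => ξ c * φ c x + e * (ξ c * φ c y) := by funext c; ring
    rw [e1]; exact h3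
  have hlaw0 : ∀ x, (PG ι).map (fun ω => f ω x) = gaussianReal 0 (μ.real univ).toNNReal := by
    intro x
    simpa using (hlaw x x 0).1
  have hint : ∀ x, Integrable (fun ω => f ω x) (PG ι) := fun x =>
    (moments (hlaw0 x)).1.integrable (by norm_num)
  have hAG : ∀ (T : ℝ) (G : Set (ι → ℝ)),
      (∀ ξ ∈ G, ∀ z, |z| ≤ T → ∀ y, HasSum (fun c => ξ c * φ c z) y → 0 ≤ y) →
      (PG ι).real G ≤ (PG ι).real (A T) := by
    intro T G hG
    refine ENNReal.toReal_mono (measure_ne_top _ _) (measure_mono_ae ?_)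
    filter_upwards [hf1] with ξ hξ hξG x hx
    exact hG ξ hξG x (abs_le.2 hx) _ (hξ x)
  have hApos : ∀ T, 0 < PG ι (A T) := by
    intro T
    obtain ⟨T', c, G, s, a, x, hT, -, hG, hG2, -, -⟩ := hpers T
    have h1 : 0 < (PG ι).real (A T) :=
      (exp_pos _).trans_le (hG.trans (hAG T G fun ξ hξ z hz => hG2 ξ hξ z (hz.trans hT)))
    exact (ENNReal.toReal_pos_iff.1 h1).1
  have hcond : ∀ (T : ℝ) (g : (ι → ℝ) → ℝ), Integrable g (PG ι) → Integrable g ((PG ι)[|A T]) :=
    fun T g hg => (hg.integrableOn (s := A T)).smul_measure (ENNReal.inv_ne_top.2 (hApos T).ne')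
  have hmc : ∀ T, Continuous fun x => ∫ ω, f ω x ∂((PG ι)[|A T]) := by
    intro T
    rw [continuous_iff_continuousAt]
    intro x0
    refine continuousAt_of_dominated (bound := fun ω => |Z ω| * (1 + (|x0| + 1)) ^ 2)
      (Eventually.of_forall fun x => (hev x).aestronglyMeasurable) ?_
      (hcond T _ (hZ.abs.mul_const _))
      (Eventually.of_forall fun ω => (f ω).continuous.continuousAt)
    filter_upwards [Metric.ball_mem_nhds x0 one_pos] with x hx
    filter_upwards [cond_absolutelyContinuous.ae_le hf] with ω hω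
    have h1 := (hω x).2
    have h2 : |x| ≤ |x0| + 1 := by
      rw [Metric.mem_ball, Real.dist_eq] at hx
      have := abs_sub_abs_le_abs_sub x x0
      linarith
    rw [Real.norm_eq_abs]
    calc |f ω x| ≤ Z ω * (1 + |x|) ^ 2 := h1
      _ ≤ |Z ω| * (1 + (|x0| + 1)) ^ 2 := by gcongr; exact le_abs_self _
  refine ⟨f, hfm, ⟨fun I => ⟨isGaussian_of_map_eq_gaussianReal fun L => ?_⟩⟩,
    fun x => (moments (hlaw0 x)).2.1, fun I h => ?_, fun x y => ?_, fun T _ => hApos T,
    fun T => ⟨_, hmc T⟩, fun T _ x => ⟨hcond T _ (hint x), rfl⟩, fun H => ?_⟩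
  · have := hL I 0 L
    simp only [add_zero] at this
    exact ⟨0, _, this⟩
  · have h1 : IsProbabilityMeasure ((PG ι).map (fun ω (x : I) => f ω (x + h))) :=
      Measure.isProbabilityMeasure_map (measurable_pi_lambda _ fun x => hev _).aemeasurable
    have h2 : IsProbabilityMeasure ((PG ι).map (fun ω (x : I) => f ω x)) :=
      Measure.isProbabilityMeasure_map (measurable_pi_lambda _ fun x => hev _).aemeasurable
    refine Measure.ext_of_charFunDual (funext fun L => ?_)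
    have h3 := hL I 0 L
    simp only [add_zero] at h3
    rw [charFunDual_eq_charFun_map_one, charFunDual_eq_charFun_map_one, hL I h L, h3]
  · obtain ⟨p1, -, p2⟩ := moments (hlaw x y 1).1
    obtain ⟨q1, -, q2⟩ := moments (hlaw x y (-1)).1
    rw [Real.coe_toNNReal _ (hlaw x y 1).2] at p2
    rw [Real.coe_toNNReal _ (hlaw x y (-1)).2] at q2
    have h1 : ∫ ω, f ω x * f ω y ∂PG ι = ∫ η, cos (η * (x - y)) ∂μ := by
      have e : (fun ω => f ω x * f ω y) = fun ω =>
          1 / 4 * ((f ω x + 1 * f ω y) ^ 2 - (f ω x + -1 * f ω y) ^ 2) := by funext ω; ring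
      rw [e, integral_const_mul, integral_sub p1.integrable_sq q1.integrable_sq, p2, q2]
      ring
    have e2 : ∀ l : ℝ, Complex.exp (Complex.I * l * (x - y))
        = ((cos (l * (x - y)) : ℝ) : ℂ) + ((sin (l * (x - y)) : ℝ) : ℂ) * Complex.I := by
      intro l
      rw [show Complex.I * l * (x - y) = ((l * (x - y) : ℝ) : ℂ) * Complex.I by push_cast; ring,
        Complex.exp_mul_I, ← Complex.ofReal_cos, ← Complex.ofReal_sin]
    simp only [e2]
    rw [integral_add (int_cos μ _).ofReal ((int_sin μ _).ofReal.mul_const _), integral_mul_const,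
      integral_complex_ofReal, integral_complex_ofReal, hsin, h1]
    simp
  · set ψ : ℝ → ℝ := fun y => min 1 (max 0 (-2 - y)) with hψ
    have hψc : Continuous ψ := by simp only [hψ]; fun_prop
    have hψ0 : ∀ y, 0 ≤ ψ y := fun y => le_min zero_le_one (le_max_left _ _)
    have hψ1 : ∀ y, ‖ψ y‖ ≤ 1 := fun y => by
      rw [Real.norm_eq_abs, abs_of_nonneg (hψ0 y)]; exact min_le_left _ _
    set Φ : C(ℝ, ℝ) →ᵇ ℝ := BoundedContinuousFunction.ofNormedAddCommGroup (fun g => ψ (g 0))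
      (hψc.comp (continuous_eval_const 0)) 1 fun g => hψ1 _ with hΦ
    have hΦa : ∀ g, Φ g = ψ (g 0) := fun g => rfl
    have hlim : 0 < ∫ ω, Φ (f ω) ∂PG ι := by
      simp only [hΦa]
      rw [← integral_map (hev 0).aemeasurable hψc.aestronglyMeasurable, hlaw0,
        integral_pos_iff_support_of_nonneg hψ0 (int_bdd _ hψc 1 hψ1)]
      have hv : (μ.real univ).toNNReal ≠ 0 := by simpa using hpos
      have hsub : Iio (-2 : ℝ) ⊆ Function.support ψ := by
        intro y hy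
        have : 0 < ψ y := lt_min one_pos (lt_max_of_lt_right (by linarith [mem_Iio.1 hy]))
        exact this.ne'
      refine lt_of_lt_of_le ?_ (measure_mono hsub)
      rw [pos_iff_ne_zero]
      intro h0
      have := gaussianReal_absolutelyContinuous' 0 hv h0
      simp at this
    obtain ⟨T0, hT0⟩ := eventually_atTop.1 ((H Φ).eventually (lt_mem_nhds hlim))
    obtain ⟨T, c, G, s, a, x, hT, hc, hG, hG2, hg, hv⟩ := hpers (max T0 0)
    have hT1 : 0 ≤ T := (le_max_right _ _).trans hT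
    have hQ : 0 ≤ QF μ s a x := by
      rw [QF_eq]; exact integral_nonneg fun η => by positivity
    have hm : ∫ ω, f ω 0 ∂((PG ι)[|A T]) ≤ 2 := by
      refine cond_bound (PG ι) (hAm T) (lin_law hK hf1 s a x) (hint 0)
        (Eventually.of_forall fun ω hω => hg (f ω) fun z hz => hω z (abs_le.1 hz)) hc
        (hG.trans (hAG T G hG2)) ?_
      rwa [Real.coe_toNNReal _ hQ]
    have h1 := hT0 T ((le_max_left _ _).trans hT)
    refine h1.ne' (integral_eq_zero_of_ae ?_)
    filter_upwards [ae_cond_mem (μ := PG ι) (hAm T)] with ω hω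
    have h2 : 0 ≤ f ω 0 := hω 0 ⟨by linarith, hT1⟩
    simp only [hΦa, ContinuousMap.sub_apply, ContinuousMap.coe_mk, Pi.zero_apply, hψ]
    rw [max_eq_left (by linarith)]
    simp

end Pool.Agent.MP_0502fb_pr.H21
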