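import Mathlib

/-!
Series with independent standard Gaussian coefficients.
-/

open MeasureTheory ProbabilityTheory Real Set Filter Topology
open scoped NNReal ENNReal

namespace Pool.Agent.MP_0502fb_pr.H21

variable {ι : Type}

/-- The law of an i.i.d. standard Gaussian family. -/
noncomputable def PG (ι : Type) : Measure (ι → ℝ) :=
  Measure.infinitePi (fun _ : ι => gaussianReal 0 1)

instance instPG : IsProbabilityMeasure (PG ι) := by unfold PG; infer_instance

lemma PG_eval (c : ι) : (PG ι).map (fun ξ => ξ c) = gaussianReal 0 1 :=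
  Measure.infinitePi_map_eval _ c

lemma charFun_fin (β : ι → ℝ) (s : Finset ι) (t : ℝ) :
    charFun ((PG ι).map fun ξ => ∑ c ∈ s, ξ c * β c) t
      = Complex.exp (-((∑ c ∈ s, β c ^ 2 : ℝ) : ℂ) * t ^ 2 / 2) := by
  have hind : iIndepFun (fun (c : ι) (ξ : ι → ℝ) => ξ c * β c) (PG ι) :=
    iIndepFun_infinitePi (X := fun c x => x * β c) (fun c => by fun_prop)
  have h := (hind.restrict s).charFun_map_fun_finsetSum_eq_prod
    (fun c _ => Measurable.aemeasurable (by fun_prop))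
  rw [h, Finset.prod_apply]
  have h2 : ∀ c, charFun ((PG ι).map fun ξ => ξ c * β c) t
      = Complex.exp (-((β c ^ 2 : ℝ) : ℂ) * t ^ 2 / 2) := by
    intro c
    have : (fun ξ : ι → ℝ => ξ c * β c) = (fun x => x * β c) ∘ fun ξ : ι → ℝ => ξ c := rfl
    rw [this, ← Measure.map_map (by fun_prop) (by fun_prop), PG_eval, gaussianReal_map_mul_const,
      charFun_gaussianReal]
    congr 1
    simp only [NNReal.coe_mul, NNReal.coe_mk, NNReal.coe_one]
    push_cast; ring
  simp only [h2]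
  rw [← Complex.exp_sum]
  congr 1
  push_cast
  rw [← Finset.sum_neg_distrib, Finset.sum_mul, Finset.sum_div]

lemma aemeas_of_hasSum [Countable ι] {β : ι → ℝ} {Y : (ι → ℝ) → ℝ}
    (hY : ∀ᵐ ξ ∂PG ι, HasSum (fun c => ξ c * β c) (Y ξ)) : AEMeasurable Y (PG ι) := by
  refine aemeasurable_of_tendsto_metrizable_ae (atTop : Filter (Finset ι))
    (f := fun s ξ => ∑ c ∈ s, ξ c * β c) (fun s => Measurable.aemeasurable (by fun_prop)) ?_
  filter_upwards [hY] with ξ hξ
  exact hξ

lemma law_tsum [Countable ι] {β : ι → ℝ} {Y : (ι → ℝ) → ℝ}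
    (hY : ∀ᵐ ξ ∂PG ι, HasSum (fun c => ξ c * β c) (Y ξ)) {v : ℝ}
    (hv : HasSum (fun c => β c ^ 2) v) : (PG ι).map Y = gaussianReal 0 v.toNNReal := by
  have hm := aemeas_of_hasSum hY
  have hv0 : 0 ≤ v := hv.nonneg fun c => sq_nonneg _
  have : IsProbabilityMeasure ((PG ι).map Y) := Measure.isProbabilityMeasure_map hm
  refine Measure.ext_of_charFun (funext fun t => ?_)
  have h1 : Tendsto (fun s : Finset ι => charFun ((PG ι).map fun ξ => ∑ c ∈ s, ξ c * β c) t)
      atTop (𝓝 (charFun ((PG ι).map Y) t)) := by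
    have e1 : ∀ s : Finset ι, charFun ((PG ι).map fun ξ => ∑ c ∈ s, ξ c * β c) t
        = ∫ ξ, Complex.exp (t * ((∑ c ∈ s, ξ c * β c : ℝ) : ℂ) * Complex.I) ∂PG ι := by
      intro s
      rw [charFun_apply_real, integral_map (Measurable.aemeasurable (by fun_prop)) (by fun_prop)]
    rw [charFun_apply_real, integral_map hm (by fun_prop)]
    simp only [e1]
    refine tendsto_integral_filter_of_dominated_convergence (fun _ => 1)
      (Eventually.of_forall fun s => Measurable.aestronglyMeasurable (by fun_prop))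
      (Eventually.of_forall fun s => Eventually.of_forall fun ξ => ?_) (integrable_const _) ?_
    · rw [← Complex.ofReal_mul, Complex.norm_exp_ofReal_mul_I]
    · filter_upwards [hY] with ξ hξ
      have hc : Continuous fun y : ℝ => Complex.exp (t * (y : ℂ) * Complex.I) := by fun_prop
      exact (hc.tendsto _).comp hξ
  have h2 : Tendsto (fun s : Finset ι => charFun ((PG ι).map fun ξ => ∑ c ∈ s, ξ c * β c) t)
      atTop (𝓝 (Complex.exp (-(v : ℂ) * t ^ 2 / 2))) := by
    simp only [charFun_fin]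
    have hc : Continuous fun y : ℝ => Complex.exp (-(y : ℂ) * t ^ 2 / 2) := by fun_prop
    exact (hc.tendsto _).comp hv
  rw [tendsto_nhds_unique h1 h2, charFun_gaussianReal, Real.coe_toNNReal _ hv0]
  congr 1
  push_cast; ring

lemma exists_Z [Countable ι] (b : ι → ℝ) (hb : Summable b) (hb0 : ∀ c, 0 ≤ b c) :
    ∃ Z : (ι → ℝ) → ℝ, Integrable Z (PG ι) ∧
      ∀ᵐ ξ ∂PG ι, HasSum (fun c => b c * |ξ c|) (Z ξ) := by
  set Zl : (ι → ℝ) → ℝ≥0∞ := fun ξ => ∑' c, ENNReal.ofReal (b c * |ξ c|) with hZl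
  have hmeas : ∀ c, Measurable fun ξ : ι → ℝ => ENNReal.ofReal (b c * |ξ c|) := fun c => by
    fun_prop
  have hZm : Measurable Zl := Measurable.tsum hmeas
  set κ : ℝ≥0∞ := ∫⁻ x, ENNReal.ofReal |x| ∂gaussianReal 0 1 with hκ
  have hκf : κ ≠ ∞ := by
    have h : Integrable (fun x : ℝ => x) (gaussianReal 0 1) :=
      memLp_one_iff_integrable.1 (memLp_id_gaussianReal 1)
    have h2 := h.abs.lintegral_lt_top
    exact h2.ne
  have hfin : ∫⁻ ξ, Zl ξ ∂PG ι ≠ ∞ := by
    rw [hZl, lintegral_tsum fun c => (hmeas c).aemeasurable]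
    have : ∀ c, ∫⁻ ξ, ENNReal.ofReal (b c * |ξ c|) ∂PG ι = ENNReal.ofReal (b c) * κ := by
      intro c
      simp only [ENNReal.ofReal_mul (hb0 c)]
      rw [lintegral_const_mul _ (by fun_prop), hκ, ← PG_eval c,
        lintegral_map (by fun_prop) (by fun_prop)]
    simp only [this]
    rw [ENNReal.tsum_mul_right, ← ENNReal.ofReal_tsum_of_nonneg hb0 hb]
    exact ENNReal.mul_ne_top ENNReal.ofReal_ne_top hκf
  refine ⟨fun ξ => (Zl ξ).toReal, integrable_toReal_of_lintegral_ne_top hZm.aemeasurable hfin, ?_⟩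
  filter_upwards [ae_lt_top hZm hfin] with ξ hξ
  have h := ENNReal.hasSum_toReal hξ.ne
  have e : ∀ c, (ENNReal.ofReal (b c * |ξ c|)).toReal = b c * |ξ c| := fun c =>
    ENNReal.toReal_ofReal (mul_nonneg (hb0 c) (abs_nonneg _))
  rw [← ENNReal.tsum_toReal_eq (fun c => ENNReal.ofReal_ne_top)] at h
  simpa only [e] using h

theorem exists_field [Countable ι] (φ : ι → C(ℝ, ℝ)) (b : ι → ℝ) (hb : Summable b)
    (hφ : ∀ c x, |φ c x| ≤ b c * (1 + |x|) ^ 2) :
    ∃ (f : (ι → ℝ) → C(ℝ, ℝ)) (Z : (ι → ℝ) → ℝ), @Measurable _ _ _ (borel _) f ∧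
      Integrable Z (PG ι) ∧ ∀ᵐ ξ ∂PG ι, ∀ x,
        HasSum (fun c => ξ c * φ c x) (f ξ x) ∧ |f ξ x| ≤ Z ξ * (1 + |x|) ^ 2 := by
  have hb0 : ∀ c, 0 ≤ b c := fun c => by
    have := (abs_nonneg _).trans (hφ c 0)
    simpa using this
  obtain ⟨Z, hZ, hZs⟩ := exists_Z b hb hb0
  let _ : MeasurableSpace C(ℝ, ℝ) := borel _
  have : BorelSpace C(ℝ, ℝ) := ⟨rfl⟩
  set F : (ι → ℝ) → C(ℝ, ℝ) := fun ξ => ∑' c, ξ c • φ c with hF
  have hsum : ∀ᵐ ξ ∂PG ι, HasSum (fun c => ξ c • φ c) (F ξ) := by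
    filter_upwards [hZs] with ξ hξ
    refine Summable.hasSum (ContinuousMap.summable_of_locally_summable_norm fun K => ?_)
    obtain ⟨R, hR⟩ := K.isCompact.isBounded.exists_norm_le
    refine Summable.of_nonneg_of_le (fun c => norm_nonneg _) (fun c => ?_)
      (hξ.summable.mul_right ((1 + |R|) ^ 2))
    refine (ContinuousMap.norm_le _ (by have := hb0 c; positivity)).2 fun x => ?_
    have h1 := hφ c x
    have h2 : |(x : ℝ)| ≤ |R| := (hR x x.2).trans (le_abs_self R)
    have h3 := hb0 c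
    simp only [ContinuousMap.restrict_apply, ContinuousMap.smul_apply, smul_eq_mul,
      Real.norm_eq_abs, abs_mul]
    calc |ξ c| * |φ c x| ≤ |ξ c| * (b c * (1 + |R|) ^ 2) := by
          gcongr; exact h1.trans (by gcongr)
      _ = b c * |ξ c| * (1 + |R|) ^ 2 := by ring
  have hFm : AEMeasurable F (PG ι) := by
    refine aemeasurable_of_tendsto_metrizable_ae (atTop : Filter (Finset ι))
      (f := fun s ξ => ∑ c ∈ s, ξ c • φ c) (fun s => ?_) ?_
    · have : Continuous fun ξ : ι → ℝ => ∑ c ∈ s, ξ c • φ c := by fun_prop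
      exact this.measurable.aemeasurable
    · filter_upwards [hsum] with ξ hξ
      exact hξ
  refine ⟨hFm.mk F, Z, hFm.measurable_mk, hZ, ?_⟩
  filter_upwards [hsum, hZs, hFm.ae_eq_mk] with ξ h1 h2 h3 x
  rw [← h3]
  have h4 : HasSum (fun c => ξ c * φ c x) (F ξ x) := by
    simpa using ContinuousMap.hasSum_apply h1 x
  refine ⟨h4, ?_⟩
  have h5 := h4.norm_le_of_bounded (h2.mul_right ((1 + |x|) ^ 2)) fun c => by
    rw [Real.norm_eq_abs, abs_mul]
    calc |ξ c| * |φ c x| ≤ |ξ c| * (b c * (1 + |x|) ^ 2) := by gcongr; exact hφ c x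
      _ = b c * |ξ c| * (1 + |x|) ^ 2 := by ring
  simpa using h5

lemma box_ge (θ : ℝ) {τ : ℝ} (h0 : 0 < τ) (h1 : τ ≤ 1) :
    ENNReal.ofReal (τ * exp (-2 - θ ^ 2)) ≤ gaussianReal 0 1 (Icc (θ - τ) (θ + τ)) := by
  rw [gaussianReal_apply _ one_ne_zero]
  have hpt : ∀ x ∈ Icc (θ - τ) (θ + τ),
      ENNReal.ofReal (exp (-2 - θ ^ 2) / 2) ≤ gaussianPDF 0 1 x := by
    intro x hx
    rw [gaussianPDF_def]
    refine ENNReal.ofReal_le_ofReal ?_
    simp only [gaussianPDFReal_def, NNReal.coe_one, mul_one, sub_zero]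
    have h3 : √(2 * π) ≤ 3 := by
      rw [Real.sqrt_le_iff]; constructor
      · norm_num
      · nlinarith [pi_le_four]
    have h4 : 0 < √(2 * π) := by positivity
    have h5 : (1 / 3 : ℝ) ≤ (√(2 * π))⁻¹ := by
      rw [one_div]; exact inv_anti₀ h4 h3
    have h6 : exp (-1 - θ ^ 2) ≤ exp (-x ^ 2 / 2) := by
      refine exp_le_exp.2 ?_
      obtain ⟨hx1, hx2⟩ := hx
      have : (x - θ) ^ 2 ≤ 1 := by nlinarith
      nlinarith [sq_nonneg (x - 2 * θ)]
    have h7 : exp (-2 - θ ^ 2) * 2 ≤ exp (-1 - θ ^ 2) := by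
      rw [show -1 - θ ^ 2 = (-2 - θ ^ 2) + 1 by ring, exp_add]
      have := add_one_le_exp (1 : ℝ)
      gcongr; linarith
    have h8 := exp_pos (-2 - θ ^ 2)
    calc exp (-2 - θ ^ 2) / 2 ≤ 1 / 3 * exp (-1 - θ ^ 2) := by linarith
      _ ≤ (√(2 * π))⁻¹ * exp (-x ^ 2 / 2) := by gcongr
  calc ENNReal.ofReal (τ * exp (-2 - θ ^ 2))
      = ∫⁻ _ in Icc (θ - τ) (θ + τ), ENNReal.ofReal (exp (-2 - θ ^ 2) / 2) := by
        rw [setLIntegral_const, Real.volume_Icc, ← ENNReal.ofReal_mul (by positivity)]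
        congr 1; ring
    _ ≤ _ := setLIntegral_mono (measurable_gaussianPDF _ _) hpt

lemma tail_le (t : ℝ) : gaussianReal 0 1 {x | t < |x|} ≤ ENNReal.ofReal (4 * exp (-t)) := by
  have he : exp (1 / 2 : ℝ) ≤ 2 := by
    have h := Real.exp_one_lt_three
    have h2 : exp (1 / 2 : ℝ) * exp (1 / 2 : ℝ) = exp 1 := by rw [← exp_add]; norm_num
    nlinarith [exp_pos (1 / 2 : ℝ)]
  have h1 := measure_ge_le_exp_mul_mgf (μ := gaussianReal 0 1) (X := fun x : ℝ => x) t
    (t := 1) zero_le_one (integrable_exp_mul_gaussianReal 1)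
  have h2 := measure_le_le_exp_mul_mgf (μ := gaussianReal 0 1) (X := fun x : ℝ => x) (-t)
    (t := -1) (by norm_num) (integrable_exp_mul_gaussianReal (-1))
  rw [mgf_fun_id_gaussianReal] at h1 h2
  simp only [NNReal.coe_one] at h1 h2
  norm_num at h1 h2
  have h3 : {x : ℝ | t < |x|} ⊆ {x | t ≤ x} ∪ {x | x ≤ -t} := by
    intro x hx
    simp only [mem_ofPred_eq, mem_union] at hx ⊢
    rcases lt_abs.1 hx with h | h
    · left; exact h.le
    · right; linarith
  rw [← ofReal_measureReal]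
  refine ENNReal.ofReal_le_ofReal ?_
  have h4 := (measureReal_mono h3 (measure_ne_top (gaussianReal 0 1) _)).trans
    (measureReal_union_le _ _)
  have h5 := exp_pos (-t)
  have h6 : exp (-t) * exp (1 / 2 : ℝ) ≤ exp (-t) * 2 := by gcongr
  have e1 : {x : ℝ | t ≤ x} = Ici t := rfl
  have e2 : {x : ℝ | x ≤ -t} = Iic (-t) := rfl
  simp only [e1, e2] at h1 h2 h4
  norm_num at h6
  linarith

lemma good_event [Countable ι] (I : Finset ι) (θ t : ι → ℝ) {τ : ℝ} (h0 : 0 < τ) (h1 : τ ≤ 1)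
    (hs : Summable fun c => exp (-t c)) (ht : ∑' c, exp (-t c) ≤ 1 / 8) :
    1 / 2 * (τ ^ I.card * exp (-2 * I.card - ∑ c ∈ I, θ c ^ 2)) ≤
      (PG ι).real {ξ | (∀ c ∈ I, |ξ c - θ c| ≤ τ) ∧ ∀ c, c ∉ I → |ξ c| ≤ t c} := by
  classical
  set G := {ξ : ι → ℝ | (∀ c ∈ I, |ξ c - θ c| ≤ τ) ∧ ∀ c, c ∉ I → |ξ c| ≤ t c} with hG
  set A : ι → Set ℝ := fun d => if d ∈ I then Icc (θ d - τ) (θ d + τ) else {x | t d < |x|}
    with hA
  have hAm : ∀ d, MeasurableSet (A d) := fun d => by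
    simp only [hA]; split_ifs
    · exact measurableSet_Icc
    · exact measurableSet_lt (by fun_prop) (by fun_prop)
  set S := Set.pi (I : Set ι) A with hS
  have hPS : PG ι S = ∏ c ∈ I, gaussianReal 0 1 (A c) :=
    Measure.infinitePi_pi _ fun c _ => hAm c
  set B : ι → Set (ι → ℝ) := fun c => if c ∈ I then ∅ else Set.pi (insert c I : Finset ι) A
    with hB
  have hsub : S ⊆ G ∪ ⋃ c, B c := by
    intro ξ hξ
    by_cases h : ∀ c, c ∉ I → |ξ c| ≤ t c
    · left
      refine ⟨fun c hc => ?_, h⟩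
      have := hξ c hc
      simp only [hA, if_pos (show c ∈ I from hc), mem_Icc] at this
      rw [abs_le]; constructor <;> linarith [this.1, this.2]
    · right
      push Not at h
      obtain ⟨c, hc, hlt⟩ := h
      refine mem_iUnion.2 ⟨c, ?_⟩
      simp only [hB, if_neg hc]
      intro d hd
      rcases Finset.mem_insert.1 hd with rfl | hd
      · simp only [hA, if_neg hc]
        exact hlt
      · exact hξ d hd
  have hBc : ∀ c, PG ι (B c) ≤ ENNReal.ofReal (4 * exp (-t c)) * PG ι S := by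
    intro c
    simp only [hB]
    split_ifs with hc
    · simp
    · have : PG ι (Set.pi (insert c I : Finset ι) A) = ∏ d ∈ insert c I, gaussianReal 0 1 (A d) :=
        Measure.infinitePi_pi _ fun c _ => hAm c
      rw [this, Finset.prod_insert hc, ← hPS]
      gcongr
      simp only [hA, if_neg hc]
      exact tail_le _
  have hU : PG ι (⋃ c, B c) ≤ ENNReal.ofReal (1 / 2) * PG ι S := by
    refine (measure_iUnion_le _).trans ((ENNReal.tsum_le_tsum hBc).trans ?_)
    rw [ENNReal.tsum_mul_right, ← ENNReal.ofReal_tsum_of_nonneg (fun c => by positivity)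
      (hs.mul_left 4), tsum_mul_left]
    gcongr
    linarith
  have h2 : (PG ι).real S ≤ (PG ι).real G + 1 / 2 * (PG ι).real S := by
    refine (measureReal_mono hsub (measure_ne_top _ _)).trans ((measureReal_union_le _ _).trans ?_)
    gcongr
    have := ENNReal.toReal_mono (ENNReal.mul_ne_top ENNReal.ofReal_ne_top (measure_ne_top _ _)) hU
    rwa [ENNReal.toReal_mul, ENNReal.toReal_ofReal (by norm_num)] at this
  have h3 : τ ^ I.card * exp (-2 * I.card - ∑ c ∈ I, θ c ^ 2) ≤ (PG ι).real S := by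
    have e : τ ^ I.card * exp (-2 * I.card - ∑ c ∈ I, θ c ^ 2)
        = ∏ c ∈ I, (τ * exp (-2 - θ c ^ 2)) := by
      rw [Finset.prod_mul_distrib, Finset.prod_const, ← exp_sum, Finset.sum_sub_distrib]
      simp [mul_comm]
    rw [e, measureReal_def, hPS, ENNReal.toReal_prod]
    refine Finset.prod_le_prod (fun c _ => by positivity) fun c hc => ?_
    simp only [hA, if_pos hc]
    exact (ENNReal.ofReal_le_iff_le_toReal (measure_ne_top _ _)).1 (box_ge _ h0 h1)
  linarith

lemma cond_bound {Ω : Type*} [MeasurableSpace Ω] (P : Measure Ω) [IsProbabilityMeasure P]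
    {Y g : Ω → ℝ} {A : Set Ω} (hA : MeasurableSet A) {v : ℝ≥0}
    (hY : P.map Y = gaussianReal 0 v) (hg : Integrable g P)
    (hle : ∀ᵐ ω ∂P, ω ∈ A → g ω ≤ Y ω) {c : ℝ} (hc : 0 ≤ c) (hP : exp (-c) ≤ P.real A)
    (hv : (c + 1) * v ≤ 2) : ∫ ω, g ω ∂(P[|A]) ≤ 2 := by
  have hm : AEMeasurable Y P := aemeasurable_of_map_neZero (by rw [hY]; infer_instance)
  set t := c + 1 with ht
  set a := c + v * t ^ 2 / 2 with ha
  have ht0 : 0 < t := by linarith
  have hI : Integrable (fun ω => exp (t * Y ω)) P := by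
    have := integrable_exp_mul_gaussianReal (μ := 0) (v := v) t
    rw [← hY] at this
    exact (integrable_map_measure (by fun_prop) hm).1 this
  have hE : ∫ ω, exp (t * Y ω) ∂P = exp (v * t ^ 2 / 2) := by
    have := mgf_gaussianReal hY t
    simpa [mgf] using this
  have hpos : 0 < P.real A := (exp_pos _).trans_le hP
  have h1 : ∫ ω in A, t * g ω ∂P ≤ ∫ ω in A, (a + exp (-a) * exp (t * Y ω)) ∂P := by
    refine setIntegral_mono_on_ae (hg.const_mul t).integrableOn
      ((integrable_const a).add (hI.const_mul _)).integrableOn hA ?_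
    filter_upwards [hle] with ω hω hωA
    have h2 := add_one_le_exp (-a + t * Y ω)
    rw [exp_add] at h2
    have h3 := mul_le_mul_of_nonneg_left (hω hωA) ht0.le
    linarith
  have h2 : ∫ ω in A, (a + exp (-a) * exp (t * Y ω)) ∂P ≤ a * P.real A + exp (-c) := by
    rw [integral_add (integrable_const a) (hI.const_mul _).integrableOn, setIntegral_const,
      integral_const_mul, smul_eq_mul, mul_comm (P.real A)]
    gcongr
    calc exp (-a) * ∫ ω in A, exp (t * Y ω) ∂P ≤ exp (-a) * ∫ ω, exp (t * Y ω) ∂P := by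
          refine mul_le_mul_of_nonneg_left ?_ (exp_pos _).le
          exact setIntegral_le_integral hI (Eventually.of_forall fun ω => (exp_pos _).le)
      _ = exp (-c) := by rw [hE, ← exp_add, ha]; congr 1; ring
  rw [integral_const_mul] at h1
  rw [ProbabilityTheory.cond, integral_smul_measure, ENNReal.toReal_inv, smul_eq_mul,
    ← measureReal_def, inv_mul_le_iff₀ hpos]
  have h3 : t * ∫ ω in A, g ω ∂P ≤ t * (P.real A * 2) := by
    have h4 : (v : ℝ) * t ^ 2 / 2 ≤ t := by nlinarith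
    nlinarith
  exact le_of_mul_le_mul_left h3 ht0

end Pool.Agent.MP_0502fb_pr.H21
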