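import Pool.Agent.MP_0502fb_pr.H21.Spec

/-!
A positive combination of values of the field with very small variance.
-/

open MeasureTheory ProbabilityTheory Real Set Filter Topology
open scoped NNReal ENNReal

namespace Pool.Agent.MP_0502fb_pr.H21

noncomputable def aa (n : ℕ) (p : ℕ × ℤ) : ℝ := (2 * n + 1) * ((2 * n).choose p.1 : ℝ) / 4 ^ n

noncomputable def xx (n : ℕ) (P : ℝ) (p : ℕ × ℤ) : ℝ := p.1 - n + p.2 * P

def ss (n : ℕ) : Finset (ℕ × ℤ) := Finset.range (2 * n + 1) ×ˢ {-1, 0, 1}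

lemma V1 (n : ℕ) {P : ℝ} (hP : 0 ≤ P) (g : ℝ → ℝ) (hg : ∀ z, |z| ≤ P + n → 0 ≤ g z) :
    g 0 ≤ ∑ l ∈ ss n, aa n l * g (xx n P l) := by
  have h0 : ∀ l ∈ ss n, 0 ≤ aa n l * g (xx n P l) := by
    intro l hl
    refine mul_nonneg (by unfold aa; positivity) (hg _ ?_)
    simp only [ss, Finset.mem_product, Finset.mem_range, Finset.mem_insert,
      Finset.mem_singleton] at hl
    obtain ⟨h1, h2⟩ := hl
    have h3 : (l.1 : ℝ) ≤ 2 * n := by exact_mod_cast Nat.lt_succ_iff.1 h1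
    have h4 : (0 : ℝ) ≤ l.1 := Nat.cast_nonneg _
    unfold xx
    rw [abs_le]
    rcases h2 with h | h | h <;> rw [h] <;> push_cast <;> constructor <;> linarith
  have hm : ((n, 0) : ℕ × ℤ) ∈ ss n := by simp [ss]; omega
  refine le_trans ?_ (Finset.single_le_sum h0 hm)
  have h1 : xx n P (n, 0) = 0 := by simp [xx]
  have h2 : 1 ≤ aa n (n, 0) := by
    unfold aa
    rw [one_le_div (by positivity)]
    exact_mod_cast Nat.four_pow_le_two_mul_add_one_mul_central_binom n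
  have h3 : 0 ≤ g 0 := hg 0 (by rw [abs_zero]; positivity)
  rw [h1]
  nlinarith

lemma V2 (n : ℕ) (P η : ℝ) :
    (∑ l ∈ ss n, aa n l * cos (η * xx n P l)) ^ 2 + (∑ l ∈ ss n, aa n l * sin (η * xx n P l)) ^ 2
      = (2 * n + 1) ^ 2 * (((1 + cos η) / 2) ^ (2 * n) * (1 + 2 * cos (η * P)) ^ 2) := by
  set E := Complex.exp ((η : ℂ) * Complex.I) with hE
  set F := Complex.exp (-(η : ℂ) * Complex.I) with hF
  have hEF : E * F = 1 := by rw [hE, hF, ← Complex.exp_add]; simp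
  have hc : ∀ t : ℝ, Complex.exp ((t : ℂ) * Complex.I) + Complex.exp (-(t : ℂ) * Complex.I)
      = 2 * ((cos t : ℝ) : ℂ) := by
    intro t; rw [Complex.ofReal_cos, Complex.two_cos]
  have h1 : (E + 1) ^ 2 * F = 2 + 2 * ((cos η : ℝ) : ℂ) := by
    rw [← hc η, ← hE, ← hF]
    linear_combination (E + 2) * hEF
  have key : ∑ l ∈ ss n, (aa n l : ℂ) * Complex.exp (((η * xx n P l : ℝ) : ℂ) * Complex.I)
      = (((2 * n + 1) * (((1 + cos η) / 2) ^ n * (1 + 2 * cos (η * P))) : ℝ) : ℂ) := by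
    have e1 : ∀ l : ℕ × ℤ, (aa n l : ℂ) * Complex.exp (((η * xx n P l : ℝ) : ℂ) * Complex.I)
        = (2 * n + 1) / 4 ^ n * F ^ n * (E ^ l.1 * 1 ^ (2 * n - l.1) * ((2 * n).choose l.1 : ℂ))
          * Complex.exp (l.2 * ((η * P : ℝ) : ℂ) * Complex.I) := by
      intro l
      have : Complex.exp (((η * xx n P l : ℝ) : ℂ) * Complex.I)
          = E ^ l.1 * F ^ n * Complex.exp (l.2 * ((η * P : ℝ) : ℂ) * Complex.I) := by
        rw [hE, hF, ← Complex.exp_nat_mul, ← Complex.exp_nat_mul, ← Complex.exp_add,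
          ← Complex.exp_add]
        congr 1
        simp only [xx]; push_cast; ring
      rw [this]
      simp only [aa]; push_cast; ring
    simp only [e1]
    rw [ss, Finset.sum_product]
    simp only [← Finset.mul_sum, ← Finset.sum_mul]
    rw [← add_pow, Finset.sum_insert (by decide), Finset.sum_insert (by decide),
      Finset.sum_singleton, pow_mul]
    have h2 := hc (η * P)
    have h3 : F ^ n * ((E + 1) ^ 2) ^ n = (2 + 2 * ((cos η : ℝ) : ℂ)) ^ n := by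
      rw [← mul_pow, mul_comm, h1]
    have h4 : (2 + 2 * ((cos η : ℝ) : ℂ)) ^ n = 4 ^ n * ((1 + ((cos η : ℝ) : ℂ)) / 2) ^ n := by
      rw [← mul_pow]; congr 1; ring
    have h5 : (4 : ℂ) ^ n ≠ 0 := pow_ne_zero _ (by norm_num)
    simp only [Int.cast_neg, Int.cast_one, Int.cast_zero, neg_mul, one_mul, zero_mul,
      Complex.exp_zero] at h2 ⊢
    rw [mul_assoc (_ / _), h3, h4]
    simp only [Complex.ofReal_mul, Complex.ofReal_add, Complex.ofReal_pow, Complex.ofReal_div,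
      Complex.ofReal_ofNat, Complex.ofReal_one, Complex.ofReal_natCast] at h2 ⊢
    field_simp
    linear_combination (2 * n + 1) * ((1 + ((cos η : ℝ) : ℂ)) / 2) ^ n * h2
  have hre := congrArg Complex.re key
  have him := congrArg Complex.im key
  simp only [Complex.re_sum, Complex.im_sum, Complex.re_ofReal_mul, Complex.im_ofReal_mul,
    Complex.exp_ofReal_mul_I_re, Complex.exp_ofReal_mul_I_im, Complex.ofReal_re,
    Complex.ofReal_im] at hre him
  rw [hre, him]; ring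

lemma V3 {σ w lam : ℕ → ℝ} {ν : Measure ℝ} [IsFiniteMeasure ν] [IsFiniteMeasure (spec ν σ w lam)]
    (hsupp : ∀ᵐ η ∂ν, |η| ≤ 1) (hσ0 : ∀ j, 0 < σ j) (hσ1 : ∀ j, σ j * (1 + j) ≤ (1 / 2) ^ j)
    (hw : ∀ j, 0 < w j ∧ w j ≤ 1) (k n : ℕ) {P γ a : ℝ} (hP : 0 < P) (hγ : 0 ≤ γ)
    (hlow : ∀ j, j < k → γ + w j ≤ lam j ∧ 2 * lam j + w j ≤ π)
    (hlam : lam k = 2 * π / (3 * P)) (ha1 : 9 * ((1 + cos γ) / 2) ^ (2 * n) ≤ a)
    (ha2 : (2 * (w k * P)) ^ 2 ≤ a) (ha3 : ∀ j, k < j → 9 * σ j ^ 2 ≤ a * (1 / 2) ^ j) :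
    QF (spec ν σ w lam) (ss n) (aa n) (xx n P) ≤ 4 * ((2 * n + 1) ^ 2 * a) * ν.real univ := by
  rw [QF_eq]
  simp only [V2]
  have ha : 0 ≤ a := (sq_nonneg _).trans ha2
  have hA : ∀ η : ℝ, 0 ≤ (1 + cos η) / 2 ∧ (1 + cos η) / 2 ≤ 1 := fun η => by
    constructor <;> linarith [neg_one_le_cos η, cos_le_one η]
  have hA1 : ∀ η : ℝ, 0 ≤ ((1 + cos η) / 2) ^ (2 * n) ∧ ((1 + cos η) / 2) ^ (2 * n) ≤ 1 :=
    fun η => ⟨pow_nonneg (hA η).1 _, pow_le_one₀ (hA η).1 (hA η).2⟩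
  have hB : ∀ t : ℝ, (1 + 2 * cos t) ^ 2 ≤ 9 := fun t => by
    nlinarith [neg_one_le_cos t, cos_le_one t]
  have hAB : ∀ η : ℝ, ((1 + cos η) / 2) ^ (2 * n) * (1 + 2 * cos (η * P)) ^ 2 ≤ 9 := fun η => by
    calc _ ≤ 1 * 9 := mul_le_mul (hA1 η).2 (hB _) (sq_nonneg _) zero_le_one
      _ = 9 := one_mul _
  refine spec_upper hsupp (by fun_prop) ((2 * n + 1) ^ 2 * 9) (fun η => ?_) (by positivity)
    fun u η hη => ?_
  · rw [Real.norm_eq_abs, abs_of_nonneg (mul_nonneg (sq_nonneg _)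
      (mul_nonneg (hA1 η).1 (sq_nonneg _)))]
    exact mul_le_mul_of_nonneg_left (hAB η) (sq_nonneg _)
  · set l := sg u.2 * om lam u.1 + w u.1.1 * η with hl
    rw [mul_left_comm, mul_assoc _ a]
    refine mul_le_mul_of_nonneg_left ?_ (sq_nonneg _)
    have hs := sig_sq_le hσ0 hσ1 u.1.1
    have hwη : |w u.1.1 * η| ≤ w u.1.1 := by
      rw [abs_mul, abs_of_pos (hw _).1]; exact mul_le_of_le_one_right (hw _).1.le hη
    obtain ⟨hw1, hw2⟩ := abs_le.1 hwη
    rcases lt_trichotomy u.1.1 k with hj | hj | hj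
    · obtain ⟨h1, h2⟩ := hlow _ hj
      have h0 := (hw u.1.1).1
      have h3 : γ ≤ |l| ∧ |l| ≤ π := by
        simp only [hl, sg, om]
        split_ifs <;> constructor <;>
          first
          | (rw [abs_of_nonneg (by linarith)]; linarith)
          | (rw [abs_of_nonpos (by linarith)]; linarith)
      have h4 : cos l ≤ cos γ := by
        rw [← cos_abs l]; exact cos_le_cos_of_nonneg_of_le_pi hγ h3.2 h3.1
      have h5 : ((1 + cos l) / 2) ^ (2 * n) ≤ ((1 + cos γ) / 2) ^ (2 * n) :=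
        pow_le_pow_left₀ (hA l).1 (by linarith) _
      have h6 : ((1 + cos l) / 2) ^ (2 * n) * (1 + 2 * cos (l * P)) ^ 2 ≤ a := by
        calc _ ≤ ((1 + cos γ) / 2) ^ (2 * n) * 9 :=
              mul_le_mul h5 (hB _) (sq_nonneg _) (hA1 γ).1
          _ ≤ a := by linarith
      rw [mul_comm a]
      exact mul_le_mul hs h6 (mul_nonneg (hA1 l).1 (sq_nonneg _)) (by positivity)
    · have h1 : cos (sg u.2 * om lam u.1 * P) = -(1 / 2) := by
        have e1 : cos (2 * π / 3) = -(1 / 2) := by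
          rw [show 2 * π / 3 = π - π / 3 by ring, cos_pi_sub, cos_pi_div_three]
        have e2 : cos (2 * (2 * π / 3)) = -(1 / 2) := by rw [cos_two_mul, e1]; norm_num
        have e3 : 2 * π / (3 * P) * P = 2 * π / 3 := by field_simp
        simp only [sg, om, hj, hlam]
        split_ifs <;> simp only [one_mul, neg_mul, cos_neg, mul_assoc _ _ P, e3, e1, e2]
      have h2 := abs_cos_sub_cos_le (l * P) (sg u.2 * om lam u.1 * P)
      have h3 : |l * P - sg u.2 * om lam u.1 * P| ≤ w k * P := by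
        rw [show l * P - sg u.2 * om lam u.1 * P = w u.1.1 * η * P by rw [hl]; ring, abs_mul,
          abs_of_pos hP, ← hj]
        gcongr
      rw [h1] at h2
      have h4 : (1 + 2 * cos (l * P)) ^ 2 ≤ (2 * (w k * P)) ^ 2 := by
        obtain ⟨h5, h6⟩ := abs_le.1 (h2.trans h3)
        exact sq_le_sq' (by linarith) (by linarith)
      have h6 : ((1 + cos l) / 2) ^ (2 * n) * (1 + 2 * cos (l * P)) ^ 2 ≤ a := by
        calc _ ≤ 1 * a := mul_le_mul (hA1 l).2 (h4.trans ha2) (sq_nonneg _) zero_le_one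
          _ = a := one_mul _
      rw [mul_comm a]
      exact mul_le_mul hs h6 (mul_nonneg (hA1 l).1 (sq_nonneg _)) (by positivity)
    · calc _ ≤ σ u.1.1 ^ 2 * 9 := mul_le_mul_of_nonneg_left (hAB l) (sq_nonneg _)
        _ ≤ _ := by linarith [ha3 _ hj]

end Pool.Agent.MP_0502fb_pr.H21
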