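import Pool.Agent.MP_0502fb_pr.H21.Persist
import Pool.Agent.MP_0502fb_pr.H21.Var

/-!
Choice of the parameters and the counterexample.
-/

open MeasureTheory ProbabilityTheory Real Set Filter Topology
open scoped NNReal ENNReal BoundedContinuousFunction

namespace Pool.Agent.MP_0502fb_pr.H21

lemma exists_next (M : ℕ) : ∃ N : ℕ, 1 ≤ M → 4 * M ≤ N ∧ M ^ 50 ≤ N ∧
    (N : ℝ) ^ 49 * ((1 + cos (1 / (M : ℝ) ^ 51)) / 2) ^ (2 * N) ≤ 1 := by
  by_cases hM : 1 ≤ M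
  swap
  · exact ⟨0, fun h => absurd h hM⟩
  have hM' : (1 : ℝ) ≤ M := by exact_mod_cast hM
  have h1 : cos (1 / (M : ℝ) ^ 51) < 1 := by
    have h2 : 1 / (M : ℝ) ^ 51 ≤ 1 := by
      rw [div_le_one (by positivity)]; exact one_le_pow₀ hM'
    have := cos_lt_cos_of_nonneg_of_le_pi (x := 0) (y := 1 / (M : ℝ) ^ 51) le_rfl
      (by linarith [pi_gt_three]) (by positivity)
    rwa [cos_zero] at this
  have h2 := neg_one_le_cos (1 / (M : ℝ) ^ 51)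
  have h3 := tendsto_pow_const_mul_const_pow_of_lt_one 49
    (r := ((1 + cos (1 / (M : ℝ) ^ 51)) / 2) ^ 2) (sq_nonneg _) (by nlinarith)
  obtain ⟨N, hN⟩ := ((h3.eventually (ge_mem_nhds one_pos)).and
    ((eventually_ge_atTop (4 * M)).and (eventually_ge_atTop (M ^ 50)))).exists
  exact ⟨N, fun _ => ⟨hN.2.1, hN.2.2, by rw [pow_mul]; exact hN.1⟩⟩

lemma exists_seq (B : ℕ) : ∃ N : ℕ → ℕ, (∀ j, B ≤ N j) ∧ (∀ j, 4 ^ (j + 1) ≤ N j) ∧ Monotone N ∧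
    ∀ j, 4 * N j ≤ N (j + 1) ∧ N j ^ 50 ≤ N (j + 1) ∧
      (N (j + 1) : ℝ) ^ 49 * ((1 + cos (1 / (N j : ℝ) ^ 51)) / 2) ^ (2 * N (j + 1)) ≤ 1 := by
  choose nx hnx using exists_next
  set N : ℕ → ℕ := fun j => Nat.rec (max B 4) (fun _ M => nx M) j with hN
  have hs : ∀ j, N (j + 1) = nx (N j) := fun j => rfl
  have h0 : N 0 = max B 4 := rfl
  have h4 : ∀ j, 4 ^ (j + 1) ≤ N j := by
    intro j
    induction j with
    | zero => rw [h0]; simp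
    | succ j ih =>
      have h1 : 1 ≤ N j := (Nat.one_le_pow _ _ (by norm_num)).trans ih
      have := (hnx _ h1).1
      rw [hs, pow_succ]; omega
  have h1 : ∀ j, 1 ≤ N j := fun j => (Nat.one_le_pow _ _ (by norm_num)).trans (h4 j)
  have hm : Monotone N := monotone_nat_of_le_succ fun j => by
    have := (hnx _ (h1 j)).1
    rw [hs]; omega
  exact ⟨N, fun j => (le_max_left B 4).trans (hm (Nat.zero_le j)), h4, hm, fun j => hnx _ (h1 j)⟩

noncomputable def sigN (N : ℕ → ℕ) : ℕ → ℝ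
  | 0 => 1
  | j + 1 => 1 / (N j : ℝ) ^ 25

noncomputable def wN (N : ℕ → ℕ) (j : ℕ) : ℝ := 1 / ((N j : ℝ) ^ 51) ^ 2

noncomputable def lamN (N : ℕ → ℕ) (j : ℕ) : ℝ := 2 * π / (3 * (N j : ℝ) ^ 51)

variable {N : ℕ → ℕ}

lemma N_ge (h4 : ∀ j, 4 ^ (j + 1) ≤ N j) (j : ℕ) : (4 : ℝ) ≤ N j := by
  have : 4 ^ 1 ≤ 4 ^ (j + 1) := Nat.pow_le_pow_right (by norm_num) (by omega)
  exact_mod_cast this.trans (h4 j)

lemma N_base (h4 : ∀ j, 4 ^ (j + 1) ≤ N j) (j : ℕ) :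
    (1 + ((j + 1 : ℕ) : ℝ)) / N j ≤ (1 / 2) ^ (j + 1) := by
  have h1 : (4 : ℝ) ^ (j + 1) ≤ N j := by exact_mod_cast h4 j
  have h2 : (1 + ((j + 1 : ℕ) : ℝ)) ≤ 2 ^ (j + 1) := by
    have : 1 + (j + 1) ≤ 2 ^ (j + 1) := by
      have := Nat.lt_two_pow_self (n := j + 1); omega
    exact_mod_cast this
  calc _ ≤ (2 : ℝ) ^ (j + 1) / 4 ^ (j + 1) := by gcongr
    _ = _ := by rw [← div_pow]; norm_num

lemma sigN_pos (h4 : ∀ j, 4 ^ (j + 1) ≤ N j) : ∀ j, 0 < sigN N j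
  | 0 => one_pos
  | j + 1 => by have := N_ge h4 j; simp only [sigN]; positivity

lemma sigN_succ (h4 : ∀ j, 4 ^ (j + 1) ≤ N j) (j : ℕ) :
    sigN N (j + 1) * (1 + ((j + 1 : ℕ) : ℝ)) ≤ (1 / 2) ^ (j + 1) * (1 / (N j : ℝ) ^ 24) := by
  have h1 := N_base h4 j
  have h2 := N_ge h4 j
  calc _ = (1 + ((j + 1 : ℕ) : ℝ)) / N j * (1 / (N j : ℝ) ^ 24) := by
        simp only [sigN]; field_simp
    _ ≤ _ := by gcongr

lemma sigN_le (h4 : ∀ j, 4 ^ (j + 1) ≤ N j) : ∀ j, sigN N j * (1 + j) ≤ (1 / 2) ^ j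
  | 0 => by simp [sigN]
  | j + 1 => by
    refine (sigN_succ h4 j).trans (mul_le_of_le_one_right (by positivity) ?_)
    have h2 := N_ge h4 j
    rw [div_le_one (by positivity)]
    exact one_le_pow₀ (by linarith)

lemma P_ge (h4 : ∀ j, 4 ^ (j + 1) ≤ N j) (j : ℕ) : (N j : ℝ) ≤ (N j : ℝ) ^ 51 :=
  le_self_pow₀ (by linarith [N_ge h4 j]) (by norm_num)

lemma wN_le (h4 : ∀ j, 4 ^ (j + 1) ≤ N j) (j : ℕ) : wN N j ≤ 1 / 4 * (1 / (N j : ℝ) ^ 51) := by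
  have h1 := (N_ge h4 j).trans (P_ge h4 j)
  rw [wN, sq, ← one_div_mul_one_div]
  gcongr

lemma wN_bd (h4 : ∀ j, 4 ^ (j + 1) ≤ N j) (j : ℕ) : 0 < wN N j ∧ wN N j ≤ 1 := by
  have h1 := (N_ge h4 j).trans (P_ge h4 j)
  refine ⟨by unfold wN; positivity, ?_⟩
  rw [wN, div_le_one (by positivity)]
  nlinarith

lemma lamN_eq (j : ℕ) : lamN N j = 2 * π / 3 * (1 / (N j : ℝ) ^ 51) := by
  rw [lamN]; ring

lemma singular {ν : Measure ℝ} [IsFiniteMeasure ν]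
    [IsFiniteMeasure (spec ν (sigN N) (wN N) (lamN N))] (h4 : ∀ j, 4 ^ (j + 1) ≤ N j)
    (hm : Monotone N) (hsupp : ∀ᵐ η ∂ν, |η| ≤ 1) (hν1 : 1 ≤ ν.real univ) :
    Tendsto (fun δ : ℝ => (spec ν (sigN N) (wN N) (lamN N)).real (Icc (-δ) δ) / δ) (𝓝[>] 0)
      atTop := by
  have hbig : ∀ L : ℝ, ∃ K, L ≤ N K := by
    intro L
    obtain ⟨K, hK⟩ := exists_nat_ge L
    refine ⟨K, hK.trans ?_⟩
    have : K ≤ 4 ^ (K + 1) := by
      have := Nat.lt_pow_self (n := K + 1) (show 1 < 4 by norm_num); omega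
    exact_mod_cast this.trans (h4 K)
  refine tendsto_atTop.2 fun L => ?_
  obtain ⟨K, hK⟩ := hbig (8 * L)
  have hK0 : (0 : ℝ) < 4 / (N K : ℝ) ^ 51 := by have := N_ge h4 K; positivity
  filter_upwards [Ioo_mem_nhdsGT hK0] with δ hδ
  obtain ⟨hδ0, hδ1⟩ := hδ
  have hex : ∃ j, 4 / (N j : ℝ) ^ 51 ≤ δ := by
    obtain ⟨j, hj⟩ := hbig (4 / δ)
    refine ⟨j, ?_⟩
    have := N_ge h4 j
    rw [div_le_iff₀ (by positivity)]
    rw [div_le_iff₀ hδ0] at hj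
    have := P_ge h4 j
    nlinarith
  have hj := Nat.find_spec hex
  have hKj : K < Nat.find hex := by
    by_contra h
    push Not at h
    have h1 : (N (Nat.find hex) : ℝ) ≤ N K := by exact_mod_cast hm h
    have h2 := N_ge h4 (Nat.find hex)
    have : 4 / (N K : ℝ) ^ 51 ≤ 4 / (N (Nat.find hex) : ℝ) ^ 51 := by gcongr
    linarith
  obtain ⟨k, hk⟩ : ∃ k, Nat.find hex = k + 1 := ⟨Nat.find hex - 1, by omega⟩
  have hlt := Nat.find_min hex (show k < Nat.find hex by omega)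
  rw [hk] at hj
  push Not at hlt
  have hkK : (N K : ℝ) ≤ N k := by exact_mod_cast hm (show K ≤ k by omega)
  have hk4 := N_ge h4 k
  have hk5 := N_ge h4 (k + 1)
  have hlow := spec_lower (ν := ν) (σ := sigN N) (lam := lamN N) hsupp hν1 (wN_bd h4) (k + 1)
    (δ := δ) (by unfold lamN; positivity) (by
      have h1 := wN_le h4 (k + 1)
      have h2 : 2 * π / 3 * (1 / (N (k + 1) : ℝ) ^ 51) ≤ 3 * (1 / (N (k + 1) : ℝ) ^ 51) := by
        gcongr; linarith [pi_le_four]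
      have h3 : (0 : ℝ) ≤ 1 / (N (k + 1) : ℝ) ^ 51 := by positivity
      rw [lamN_eq]
      rw [div_eq_mul_one_div] at hj
      linarith)
  rw [le_div_iff₀ hδ0]
  refine le_trans ?_ hlow
  rcases le_total L 0 with hL | hL
  · exact (mul_nonpos_of_nonpos_of_nonneg hL hδ0.le).trans (by positivity)
  calc L * δ ≤ N k / 8 * (4 / (N k : ℝ) ^ 51) := by gcongr; linarith
    _ = sigN N (k + 1) ^ 2 / 2 := by simp only [sigN]; field_simp; norm_num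

lemma pers_step {q : C(ℝ, ℝ)} {C C0 : ℝ} {ν : Measure ℝ} [IsFiniteMeasure ν]
    [IsFiniteMeasure (spec ν (sigN N) (wN N) (lamN N))]
    (hq : ∀ v, |q v| ≤ C / (1 + |v|) ^ 4) (hq1 : ∀ v, |v| ≤ 1 → 1 ≤ q v) (hC : 1 ≤ C)
    (hC0 : ∀ u : ℝ, SB (fun i : ℤ => 1 / (1 + |u - i|) ^ 2) C0) (h1C0 : 1 ≤ C0)
    (hsupp : ∀ᵐ η ∂ν, |η| ≤ 1) (h4 : ∀ j, 4 ^ (j + 1) ≤ N j) (hm : Monotone N) (m : ℕ)
    (hn1 : 4 * N (m + 1) ≤ N (m + 2)) (hn2 : N m ^ 50 ≤ N (m + 1))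
    (hn3 : (N (m + 1) : ℝ) ^ 49 * ((1 + cos (1 / (N m : ℝ) ^ 51)) / 2) ^ (2 * N (m + 1)) ≤ 1)
    (hB1 : 8 * C * C0 * (log (64 * C0) + 106) ≤ N (m + 1)) (hB2 : 7 * C ≤ N (m + 1))
    (hB3 : 2592 * ν.real univ ≤ N (m + 1)) :
    ∃ (T c : ℝ) (G : Set (Ix → ℝ)) (s : Finset (ℕ × ℤ)) (a x : ℕ × ℤ → ℝ),
      N (m + 1) ≤ T ∧ 0 ≤ c ∧ exp (-c) ≤ (PG Ix).real G ∧
      (∀ ξ ∈ G, ∀ z, |z| ≤ T → ∀ y,
        HasSum (fun c => ξ c * phi q (sigN N) (wN N) (lamN N) c z) y → 0 ≤ y) ∧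
      (∀ g : ℝ → ℝ, (∀ z, |z| ≤ T → 0 ≤ g z) → g 0 ≤ ∑ l ∈ s, a l * g (x l)) ∧
      (c + 1) * QF (spec ν (sigN N) (wN N) (lamN N)) s a x ≤ 2 := by
  set n := N (m + 1) with hn
  have hx16 : (16 : ℝ) ≤ n := by
    have : 4 ^ 2 ≤ 4 ^ (m + 1 + 1) := Nat.pow_le_pow_right (by norm_num) (by omega)
    exact_mod_cast this.trans (h4 (m + 1))
  have hM4 := N_ge h4 m
  have hx' : 4 * (n : ℝ) ≤ N (m + 2) := by exact_mod_cast hn1
  have hMx : (N m : ℝ) ^ 50 ≤ n := by exact_mod_cast hn2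
  have hk : ((m + 1 + 2 : ℕ) : ℝ) ≤ n := by
    have h1 := Nat.lt_two_pow_self (n := m + 2)
    have h2 : 2 ^ (m + 2) ≤ 4 ^ (m + 2) := Nat.pow_le_pow_left (by norm_num) _
    have h3 : 4 ^ (m + 2) ≤ n := h4 (m + 1)
    exact_mod_cast (show m + 1 + 2 ≤ n from (Nat.succ_le_of_lt h1).trans (h2.trans h3))
  have e1 : lamN N (m + 1) = 2 * π / (3 * (n : ℝ) ^ 51) := rfl
  have e2 : wN N (m + 1) = 1 / ((n : ℝ) ^ 51) ^ 2 := rfl
  have e3 : sigN N (m + 1) = 1 / (N m : ℝ) ^ 25 := rfl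
  have e4 : sigN N (m + 1 + 1) = 1 / (n : ℝ) ^ 25 := rfl
  have hmono : ∀ i, m + 1 ≤ i → (n : ℝ) ≤ N i := fun i hi => by exact_mod_cast hm hi
  generalize hx : (n : ℝ) = x at *
  have hx1 : 1 ≤ x := by linarith
  have hx0 : 0 < x := by linarith
  have pw : ∀ {a b : ℕ}, a ≤ b → x ^ a ≤ x ^ b := fun h => pow_le_pow_right₀ hx1 h
  have hxP : x ≤ x ^ 51 := le_self_pow₀ hx1 (by norm_num)
  have hlx : log x ≤ x := by linarith [log_le_sub_one_of_pos hx0]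
  have hlx0 : 0 ≤ log x := log_nonneg hx1
  have hW : ((n ^ 41 : ℕ) : ℝ) = x ^ 41 := by rw [Nat.cast_pow, hx]
  have hwT : wN N (m + 1) * (x ^ 51 + x) ≤ 1 := by
    rw [e2, div_mul_eq_mul_div, one_mul, div_le_one (by positivity)]
    nlinarith
  obtain ⟨G, hG1, hG2⟩ := persist (lam := lamN N) hq hq1 hC hC0 h1C0 (sigN_pos h4) (sigN_le h4)
    (wN_bd h4) (m + 1) (n ^ 41) (P := x ^ 51) (T := x ^ 51 + x) (Λ := x ^ 22) (ε := 1 / x ^ 2)
    (ρ := 1 / x ^ 5) (c := 15 * x ^ 46) (E := x ^ 2) (by positivity)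
    (by rw [div_le_one (by positivity)]; exact one_le_pow₀ hx1)
    (by rw [hW, div_mul_eq_mul_div, one_mul, one_le_div (by positivity)]; exact pw (by norm_num))
    (fun j hj => by
      obtain ⟨i, rfl⟩ : ∃ i, j = i + 1 := ⟨j - 1, by omega⟩
      refine (sigN_succ h4 i).trans ?_
      have h1 := hmono i (by omega)
      have h2 : x ^ 5 ≤ (N i : ℝ) ^ 24 := (pw (show 5 ≤ 24 by norm_num)).trans (by gcongr)
      gcongr)
    (by positivity) (by linarith)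
    (by rw [hW]; linarith [le_self_pow₀ hx1 (show 41 ≠ 0 by norm_num)]) e1
    (by
      have h1 : 0 < (N (m + 1 + 1) : ℝ) := by linarith
      have h2 : (4 * x) ^ 51 ≤ (N (m + 1 + 1) : ℝ) ^ 51 := by gcongr
      have h3 : 8 * x ^ 51 ≤ (4 * x) ^ 51 := by rw [mul_pow]; gcongr; norm_num
      rw [lamN, abs_of_pos (by positivity), div_mul_eq_mul_div, div_le_one (by positivity)]
      nlinarith [pi_le_four])
    hwT
    (by
      refine le_trans ?_ hwT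
      have h1 := hmono (m + 1 + 1) (by omega)
      rw [e2, wN]
      gcongr)
    (by positivity) (by positivity)
    (by
      have h1 : log (1 + (x ^ 51 + x)) ≤ 52 * x := by
        have h2 : 1 + (x ^ 51 + x) ≤ x ^ 52 := by rw [pow_succ x 51]; nlinarith
        calc _ ≤ log (x ^ 52) := log_le_log (by positivity) h2
          _ = 52 * log x := by rw [log_pow]; norm_num
          _ ≤ _ := by linarith
      have h2 : 0 ≤ log (64 * C0) := log_nonneg (by linarith)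
      calc _ ≤ 8 * C * C0 * ((log (64 * C0) + 106) * x) := by gcongr; nlinarith
        _ = 8 * C * C0 * (log (64 * C0) + 106) * x := by ring
        _ ≤ x * x := by gcongr
        _ = x ^ 2 := by ring)
    (by rw [hW]; apply le_of_eq; field_simp)
    (by
      have h1 : x ^ 2 * (1 / x ^ 5) + 7 * x ^ 22 * C * ((x ^ 51 + x - x ^ 51) / x ^ 51)
          = (x ^ 25 + 7 * C) / x ^ 28 := by field_simp; ring
      rw [h1, div_le_div_iff₀ (by positivity) (by positivity)]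
      have h2 : x ≤ x ^ 25 := le_self_pow₀ hx1 (by norm_num)
      calc (x ^ 25 + 7 * C) * x ^ 2 ≤ (x ^ 25 * x) * x ^ 2 := by gcongr; nlinarith
        _ = 1 * x ^ 28 := by ring)
    (by
      rw [hW, e3, e4]
      have h1 : 2 - log (1 / x ^ 5) ≤ 7 * x := by
        rw [one_div, log_inv, log_pow]; push_cast; linarith
      have h0 : 0 ≤ 2 - log (1 / x ^ 5) := by
        rw [one_div, log_inv, log_pow]; push_cast; linarith
      have h2 : 4 * x ^ 41 + 3 ≤ 7 * x ^ 41 := by linarith [one_le_pow₀ (n := 41) hx1]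
      have h3 : 12 * ((m + 1 + 2 : ℕ) : ℝ) * (4 * x ^ 41 + 3) * (2 - log (1 / x ^ 5))
          ≤ 12 * x * (7 * x ^ 41) * (7 * x) := by gcongr
      have h5 : (589 : ℝ) ≤ x ^ 3 := by
        calc (589 : ℝ) ≤ 16 ^ 3 := by norm_num
          _ ≤ x ^ 3 := by gcongr
      have h6 : 1 + 12 * x * (7 * x ^ 41) * (7 * x) ≤ x ^ 46 := by
        calc _ = 1 + 588 * x ^ 43 := by ring
          _ ≤ 589 * x ^ 43 := by linarith [one_le_pow₀ (n := 43) hx1]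
          _ ≤ x ^ 3 * x ^ 43 := by gcongr
          _ = x ^ 46 := by ring
      have h7 : 6 * (x ^ 22 / (1 / (N m : ℝ) ^ 25)) ^ 2 ≤ x ^ 46 := by
        calc _ = 6 * (N m : ℝ) ^ 50 * x ^ 44 := by field_simp
          _ ≤ x * x * x ^ 44 := by gcongr; linarith
          _ = x ^ 46 := by ring
      have h8 : 12 * (1 / x ^ 2 / (1 / x ^ 25)) ^ 2 = 12 * x ^ 46 := by field_simp
      have h9 : 0 ≤ x ^ 46 := by positivity
      linarith)
  have hV := V3 (lam := lamN N) hsupp (sigN_pos h4) (sigN_le h4) (wN_bd h4) (m + 1) n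
    (P := x ^ 51) (γ := 1 / (N m : ℝ) ^ 51) (a := 9 / x ^ 49) (by positivity) (by positivity)
    (fun j hj => by
      have h1 := wN_le h4 j
      have h2 := (N_ge h4 j).trans (P_ge h4 j)
      have h3 : (N j : ℝ) ≤ N m := by exact_mod_cast hm (show j ≤ m by omega)
      have h5 := N_ge h4 j
      have h6 : 1 / (N m : ℝ) ^ 51 ≤ 1 / (N j : ℝ) ^ 51 := by gcongr
      have h7 : 1 / (N j : ℝ) ^ 51 ≤ 1 / 4 := by gcongr
      have h8 : 0 ≤ 1 / (N j : ℝ) ^ 51 := by positivity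
      rw [lamN_eq]
      constructor <;> nlinarith [pi_gt_three])
    e1
    (by rw [le_div_iff₀ (by positivity)]; linarith)
    (by
      rw [e2, le_div_iff₀ (by positivity)]
      calc _ = 4 / x ^ 53 := by field_simp; norm_num
        _ ≤ 4 / 1 := by gcongr; exact one_le_pow₀ hx1
        _ ≤ 9 := by norm_num)
    (fun j hj => by
      obtain ⟨i, rfl⟩ : ∃ i, j = i + 1 := ⟨j - 1, by omega⟩
      have h1 := hmono i (by omega)
      have h2 := N_base h4 i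
      have h3 : 1 / (N i : ℝ) ≤ (1 / 2) ^ (i + 1) := by
        refine le_trans ?_ h2
        gcongr
        linarith [Nat.cast_nonneg (α := ℝ) (i + 1)]
      have h5 := N_ge h4 i
      calc 9 * sigN N (i + 1) ^ 2 = 9 / (N i : ℝ) ^ 49 * (1 / (N i : ℝ)) := by
            simp only [sigN]; field_simp
        _ ≤ _ := by gcongr)
  refine ⟨x ^ 51 + x, 15 * x ^ 46, G, ss n, aa n, xx n (x ^ 51), by linarith [pow_pos hx0 51],
    by positivity, hG1, hG2, fun g hg => V1 n (by positivity) g (by rwa [hx]), ?_⟩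
  rw [hx] at hV
  have h1 : 15 * x ^ 46 + 1 ≤ 16 * x ^ 46 := by linarith [one_le_pow₀ (n := 46) hx1]
  have h2 : (2 * x + 1) ^ 2 ≤ (3 * x) ^ 2 := by gcongr; linarith
  have h3 : 0 ≤ ν.real univ := measureReal_nonneg
  calc _ ≤ (15 * x ^ 46 + 1) * (4 * ((2 * x + 1) ^ 2 * (9 / x ^ 49)) * ν.real univ) := by gcongr
    _ ≤ 16 * x ^ 46 * (4 * ((3 * x) ^ 2 * (9 / x ^ 49)) * ν.real univ) := by gcongr
    _ = 2 * (2592 * ν.real univ) / x := by field_simp; ring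
    _ ≤ 2 := by rw [div_le_iff₀ hx0]; linarith

theorem main : ∃ (f : (Ix → ℝ) → C(ℝ, ℝ)) (μ : Measure ℝ),
    @Measurable _ _ _ (borel C(ℝ, ℝ)) f ∧
      IsGaussianProcess (fun (x : ℝ) ω => f ω x) (PG Ix) ∧
      (∀ x, ∫ ω, f ω x ∂PG Ix = 0) ∧
      (∀ (I : Finset ℝ) (h : ℝ), (PG Ix).map (fun ω (x : I) => f ω (x + h))
        = (PG Ix).map (fun ω (x : I) => f ω x)) ∧
      IsFiniteMeasure μ ∧
      (∀ x y, ((∫ ω, f ω x * f ω y ∂PG Ix : ℝ) : ℂ)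
        = ∫ l : ℝ, Complex.exp (Complex.I * l * (x - y)) ∂μ) ∧
      μ ≪ volume ∧ Tendsto (fun δ : ℝ => μ.real (Icc (-δ) δ) / δ) (𝓝[>] 0) atTop ∧
      (∀ T : ℝ, 0 < T → 0 < PG Ix {ω | ∀ x ∈ Icc (-T) T, 0 ≤ f ω x}) ∧
      ∃ m : ℝ → C(ℝ, ℝ),
        (∀ T : ℝ, 0 < T → ∀ x,
          Integrable (fun ω => f ω x) ((PG Ix)[|{ω | ∀ x ∈ Icc (-T) T, 0 ≤ f ω x}]) ∧
          m T x = ∫ ω, f ω x ∂((PG Ix)[|{ω | ∀ x ∈ Icc (-T) T, 0 ≤ f ω x}])) ∧
        ¬ ∀ Φ : C(ℝ, ℝ) →ᵇ ℝ,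
          Tendsto (fun T : ℝ => ∫ ω, Φ (f ω - m T) ∂((PG Ix)[|{ω | ∀ x ∈ Icc (-T) T, 0 ≤ f ω x}]))
            atTop (𝓝 (∫ ω, Φ (f ω) ∂PG Ix)) := by
  obtain ⟨q0, ν, C, hqc, hC, hq, hq1, hfin, hac, hsupp, hsin, hK⟩ := exists_block
  obtain ⟨C0, h1C0, hC0⟩ := exists_C0
  set q : C(ℝ, ℝ) := ⟨q0, hqc⟩ with hqdef
  have hν1 : 1 ≤ ν.real univ := by
    have h1 := hK 0 0
    simp only [sub_self, mul_zero, cos_zero, integral_const, smul_eq_mul, mul_one] at h1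
    have h2 := le_hasSum h1 0 fun i _ => mul_self_nonneg _
    have h3 := hq1 0 (by simp)
    simp only [Int.cast_zero, sub_zero] at h2
    nlinarith
  obtain ⟨B, hB⟩ := exists_nat_ge
    (max (8 * C * C0 * (log (64 * C0) + 106)) (max (7 * C) (2592 * ν.real univ)))
  obtain ⟨N, hNB, h4, hm, hN⟩ := exists_seq B
  have hB' : ∀ j, (B : ℝ) ≤ N j := fun j => by exact_mod_cast hNB j
  simp only [max_le_iff] at hB
  have hfin' : IsFiniteMeasure (spec ν (sigN N) (wN N) (lamN N)) :=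
    spec_finite (sigN_pos h4) (sigN_le h4)
  have hpos : 0 < (spec ν (sigN N) (wN N) (lamN N)).real univ := by
    have h1 := spec_lower (ν := ν) (σ := sigN N) (lam := lamN N) hsupp hν1 (wN_bd h4) 0
      (by unfold lamN; positivity) le_rfl
    have h2 := sigN_pos h4 0
    exact lt_of_lt_of_le (by positivity) (h1.trans (measureReal_mono (subset_univ _)))
  obtain ⟨f, r1, r2, r3, r4, r5, r6, r7⟩ := abstract_main (phi q (sigN N) (wN N) (lamN N)) _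
    ((SB_I hC0 h1C0 fun _ => 0).1.mul_left C)
    (phi_bound hq hC (sigN_pos h4) (sigN_le h4) (wN_bd h4)) (spec ν (sigN N) (wN N) (lamN N))
    (spec_kernel hq hC (sigN_pos h4) (sigN_le h4) (wN_bd h4) hsin hK) (spec_sin hsin) hpos
    (fun T0 => by
      obtain ⟨m, hm0⟩ := exists_nat_ge T0
      obtain ⟨T, c, G, s, a, x, h1, h2⟩ := pers_step (q := q) hq hq1 hC hC0 h1C0 hsupp h4 hm m
        (hN (m + 1)).1 (hN m).2.1 (hN m).2.2 (hB.1.trans (hB' _)) (hB.2.1.trans (hB' _))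
        (hB.2.2.trans (hB' _))
      refine ⟨T, c, G, s, a, x, hm0.trans (le_trans ?_ h1), h2⟩
      have h3 := Nat.lt_pow_self (n := m + 1 + 1) (show 1 < 4 by norm_num)
      have h5 := h4 (m + 1)
      exact_mod_cast (show m ≤ N (m + 1) by omega))
  exact ⟨f, _, r1, r2, r3, r4, hfin', r5, spec_ac hac (wN_bd h4), singular h4 hm hsupp hν1, r6, r7⟩

end Pool.Agent.MP_0502fb_pr.H21
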