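import Pool.Agent.MP_0502fb_pr.H21.Spec

/-!
A lower bound for the persistence probability through a profile with three notches.
-/

open MeasureTheory ProbabilityTheory Real Set Filter Topology
open scoped NNReal ENNReal

namespace Pool.Agent.MP_0502fb_pr.H21

lemma prof_eq {P : ℝ} (hP : 0 < P) (z : ℝ) :
    cos (2 * π / (3 * P) * z) - cos (2 * (2 * π / (3 * P)) * z)
      = 2 * sin (π * (|z| / P)) * sin (π * (|z| / P) / 3) := by
  have h1 : ∀ a : ℝ, cos (a * z) = cos (a * |z|) := by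
    intro a
    rcases abs_cases z with h | h
    · rw [h.1]
    · rw [h.1, mul_neg, cos_neg]
  rw [h1, h1 (2 * _), cos_sub_cos]
  have e1 : (2 * π / (3 * P) * |z| + 2 * (2 * π / (3 * P)) * |z|) / 2 = π * (|z| / P) := by
    field_simp; ring
  have e2 : (2 * π / (3 * P) * |z| - 2 * (2 * π / (3 * P)) * |z|) / 2 = -(π * (|z| / P) / 3) := by
    field_simp; ring
  rw [e1, e2, sin_neg]; ring

lemma prof_off {u δ : ℝ} (h0 : 0 ≤ δ) (h1 : δ ≤ u) (h2 : u ≤ 1 - δ) :
    δ ^ 2 ≤ 2 * sin (π * u) * sin (π * u / 3) := by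
  have hp := pi_pos
  have key : ∀ v : ℝ, 0 ≤ v → v ≤ 1 / 2 → 2 * v ≤ sin (π * v) := by
    intro v hv hv'
    have := mul_le_sin (x := π * v) (by positivity) (by nlinarith)
    rwa [show 2 / π * (π * v) = 2 * v by field_simp] at this
  have h3 : 2 * δ ≤ sin (π * u) := by
    rcases le_total u (1 / 2) with h | h
    · have := key u (by linarith) h; linarith
    · have := key (1 - u) (by linarith) (by linarith)
      rw [mul_sub π, mul_one, sin_pi_sub] at this; linarith
  have h4 : 2 * (δ / 3) ≤ sin (π * u / 3) := by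
    have := key (u / 3) (by linarith) (by linarith)
    rw [← mul_div_assoc π] at this; linarith
  have h5 : 2 * δ * (2 * (δ / 3)) ≤ sin (π * u) * sin (π * u / 3) :=
    mul_le_mul h3 h4 (by positivity) (by linarith)
  nlinarith

lemma prof_in {u η : ℝ} (h0 : 0 ≤ u) (h1 : 0 ≤ η) (h2 : u ≤ 1 + η) :
    -(7 * η) ≤ 2 * sin (π * u) * sin (π * u / 3) := by
  have hp := pi_pos
  rcases le_total u 1 with h | h
  · have h3 : 0 ≤ sin (π * u) := sin_nonneg_of_nonneg_of_le_pi (by positivity) (by nlinarith)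
    have h4 : 0 ≤ sin (π * u / 3) :=
      sin_nonneg_of_nonneg_of_le_pi (by positivity) (by nlinarith)
    have : 0 ≤ 2 * sin (π * u) * sin (π * u / 3) := by positivity
    linarith
  · have h3 : |sin (π * u)| ≤ π * η := by
      have e : sin (π * u) = -sin (π * (u - 1)) := by
        rw [mul_sub, mul_one, sin_sub_pi, neg_neg]
      rw [e, abs_neg]
      refine abs_sin_le_abs.trans ?_
      rw [abs_of_nonneg (by nlinarith)]
      nlinarith
    have h4 : |2 * sin (π * u) * sin (π * u / 3)| ≤ 2 * (π * η) * 1 := by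
      rw [abs_mul, abs_mul, abs_two]
      gcongr
      exact abs_sin_le_one _
    have h5 := pi_lt_d2
    have h6 := neg_abs_le (2 * sin (π * u) * sin (π * u / 3))
    nlinarith

lemma t_le {L0 T a : ℝ} (hL : 0 ≤ L0) (hT : 0 ≤ T) (ha : |a| ≤ T) (j : ℕ) (i : ℤ) :
    L0 + j + 2 * log (1 + |(0 : ℝ) - i|)
      ≤ (L0 + 2 + 2 * log (1 + T)) * (1 + j) * (1 + |a - i|) := by
  have h1 : |(0 : ℝ) - i| ≤ |a - i| + T := by
    have : (0 : ℝ) - i = (a - i) - a := by ring
    rw [this]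
    exact (abs_sub _ _).trans (by linarith)
  set V := |a - i| with hV
  have hV0 : 0 ≤ V := abs_nonneg _
  have h2 : log (1 + |(0 : ℝ) - i|) ≤ log (1 + T) + V := by
    calc log (1 + |(0 : ℝ) - i|) ≤ log ((1 + T) * (1 + V)) :=
          log_le_log (by positivity) (by nlinarith)
      _ = log (1 + T) + log (1 + V) := log_mul (by positivity) (by positivity)
      _ ≤ _ := by
          have := log_le_sub_one_of_pos (show 0 < 1 + V by positivity)
          linarith
  have h3 : 0 ≤ log (1 + T) := log_nonneg (by linarith)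
  have h4 : (0 : ℝ) ≤ j := Nat.cast_nonneg j
  set A := L0 + 2 * log (1 + T) with hA
  have hA0 : 0 ≤ A := by positivity
  have e : (L0 + 2 + 2 * log (1 + T)) * (1 + j) * (1 + V)
      = A + 2 * j + 2 * V + (2 + A * j + A * V + (A + 2) * j * V) := by rw [hA]; ring
  have h5 : 0 ≤ 2 + A * j + A * V + (A + 2) * j * V := by positivity
  rw [e]; linarith

lemma exists_I (w : ℕ → ℝ) (P : ℝ) (K W : ℕ) : ∃ I : Finset Ix,
    (I.card : ℝ) ≤ 12 * K * (4 * W + 3) ∧ ∀ (c : Ix) (e : ℤ), c.1.1.1 < K → |e| ≤ 1 →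
      |w c.1.1.1 * (e * P) - c.2| ≤ 2 * W → c ∈ I := by
  classical
  refine ⟨Finset.image (fun p : Ux × ℤ × ℤ => ((p.1, ⌊w p.1.1.1 * (p.2.1 * P)⌋ + p.2.2) : Ix))
    (((Finset.range K ×ˢ Finset.univ) ×ˢ Finset.univ) ×ˢ
      (Finset.Icc (-1) 1 ×ˢ Finset.Icc (-(2 * W + 1 : ℤ)) (2 * W + 1))), ?_, ?_⟩
  · refine (Nat.cast_le.2 Finset.card_image_le).trans (le_of_eq ?_)
    simp only [Finset.card_product, Finset.card_range, Finset.card_univ, Fintype.card_bool,
      Int.card_Icc]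
    have e1 : (1 + 1 - -1 : ℤ).toNat = 3 := by decide
    have e2 : (2 * (W : ℤ) + 1 + 1 - -(2 * W + 1)).toNat = 4 * W + 3 := by omega
    rw [e1, e2]; push_cast; ring
  · intro c e hc he hd
    refine Finset.mem_image.2 ⟨(c.1, e, c.2 - ⌊w c.1.1.1 * (e * P)⌋), ?_, by simp⟩
    simp only [Finset.mem_product, Finset.mem_range, Finset.mem_univ, and_true, Finset.mem_Icc]
    refine ⟨hc, abs_le.1 he, ?_⟩
    have h1 := Int.floor_le (w c.1.1.1 * (e * P))
    have h2 := Int.lt_floor_add_one (w c.1.1.1 * (e * P))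
    obtain ⟨h3, h4⟩ := abs_le.1 hd
    constructor
    · have : (-(2 * W + 1) : ℝ) ≤ c.2 - ⌊w c.1.1.1 * (e * P)⌋ := by linarith
      exact_mod_cast this
    · have : (c.2 - ⌊w c.1.1.1 * (e * P)⌋ : ℝ) ≤ 2 * W + 1 := by linarith
      exact_mod_cast this

theorem persist {q : C(ℝ, ℝ)} {σ w lam : ℕ → ℝ} {C C0 : ℝ}
    (hq : ∀ v, |q v| ≤ C / (1 + |v|) ^ 4) (hq1 : ∀ v, |v| ≤ 1 → 1 ≤ q v) (hC : 1 ≤ C)
    (hC0 : ∀ u : ℝ, SB (fun i : ℤ => 1 / (1 + |u - i|) ^ 2) C0) (h1C0 : 1 ≤ C0)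
    (hσ0 : ∀ j, 0 < σ j) (hσ1 : ∀ j, σ j * (1 + j) ≤ (1 / 2) ^ j) (hw : ∀ j, 0 < w j ∧ w j ≤ 1)
    (k W : ℕ) {P T Λ ε ρ c E : ℝ} (hρ0 : 0 < ρ) (hρ1 : ρ ≤ 1) (hρW : 1 ≤ ρ * W)
    (hσ2 : ∀ j, k + 1 < j → σ j * (1 + j) ≤ (1 / 2) ^ j * ρ)
    (hP : 0 < P) (hT1 : P ≤ T) (hT2 : T ≤ P + W) (hlam : lam k = 2 * π / (3 * P))
    (hlam' : |lam (k + 1)| * T ≤ 1) (hwk : w k * T ≤ 1) (hwk' : w (k + 1) * T ≤ 1)
    (hΛ : 0 ≤ Λ) (hε : 0 ≤ ε) (hE : 8 * C * C0 * (log (64 * C0) + 2 + 2 * log (1 + T)) ≤ E)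
    (hoff : E ≤ Λ * (W / P) ^ 2) (hin : E * ρ + 7 * Λ * C * ((T - P) / P) ≤ ε)
    (hc : 1 + 12 * (k + 2 : ℕ) * (4 * W + 3) * (2 - log ρ) + 6 * (Λ / σ k) ^ 2
      + 12 * (ε / σ (k + 1)) ^ 2 ≤ c) :
    ∃ G : Set (Ix → ℝ), exp (-c) ≤ (PG Ix).real G ∧ ∀ ξ ∈ G, ∀ z, |z| ≤ T → ∀ y,
      HasSum (fun c => ξ c * phi q σ w lam c z) y → 0 ≤ y := by
  classical
  obtain ⟨I, hI, hmem⟩ := exists_I w P (k + 2) W
  set L0 := log (64 * C0) with hL0
  have hL00 : 0 ≤ L0 := log_nonneg (by linarith)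
  have hT0 : 0 ≤ T := by linarith
  set Lg := L0 + 2 + 2 * log (1 + T) with hLg
  have hLg1 : 1 ≤ Lg := by
    have := log_nonneg (show 1 ≤ 1 + T by linarith)
    linarith
  set t : Ix → ℝ := fun c => L0 + c.1.1.1 + 2 * log (1 + |(0 : ℝ) - c.2|) with ht
  set c1 : Ix := (((k, false), true), 0) with hc1
  set c2 : Ix := (((k, true), true), 0) with hc2
  set c3 : Ix := (((k + 1, false), true), 0) with hc3
  set θ : Ix → ℝ := fun c => (if c = c1 then Λ / σ k else 0) + (if c = c2 then -(Λ / σ k) else 0)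
    + (if c = c3 then 2 * (ε / σ (k + 1)) else 0) with hθ
  have hW0 : (0 : ℝ) ≤ 2 * W := by positivity
  have m1 : c1 ∈ I := hmem c1 0 (by simp [hc1]) (by simp) (by simp [hc1])
  have m2 : c2 ∈ I := hmem c2 0 (by simp [hc2]) (by simp) (by simp [hc2])
  have m3 : c3 ∈ I := hmem c3 0 (by simp [hc3]) (by simp) (by simp [hc3])
  have hθ0 : ∀ c, c ∉ I → θ c = 0 := by
    intro c hc
    have n1 : c ≠ c1 := fun h => hc (h ▸ m1)
    have n2 : c ≠ c2 := fun h => hc (h ▸ m2)
    have n3 : c ≠ c3 := fun h => hc (h ▸ m3)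
    simp [hθ, n1, n2, n3]
  have hSt : SB (fun c => exp (-t c)) (1 / 8) := by
    have h := (SB_I hC0 h1C0 fun _ => 0).mul (c := 1 / (64 * C0)) (by positivity)
    rw [show 1 / (64 * C0) * (8 * C0) = 1 / 8 by field_simp; norm_num] at h
    refine h.mono (fun c => (exp_pos _).le) fun c => ?_
    have e1 : exp (-L0) = 1 / (64 * C0) := by rw [exp_neg, hL0, exp_log (by positivity), one_div]
    have e2 : exp (-(2 * log (1 + |(0 : ℝ) - c.2|))) = 1 / (1 + |(0 : ℝ) - c.2|) ^ 2 := by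
      rw [exp_neg, two_mul, exp_add, exp_log (by positivity), one_div, sq]
    have e3 : exp (-(c.1.1.1 : ℝ)) ≤ (1 / 2) ^ c.1.1.1 := by
      rw [show -(c.1.1.1 : ℝ) = c.1.1.1 * (-1) by ring, exp_nat_mul]
      gcongr
      exact exp_neg_one_lt_half.le
    simp only [ht, neg_add]
    rw [exp_add, exp_add, e1, e2, mul_assoc]
    gcongr
  refine ⟨_, le_trans ?_ (good_event I θ t hρ0 hρ1 hSt.1 hSt.2), ?_⟩
  · have h1 : ∑ c ∈ I, θ c ^ 2 ≤ 6 * (Λ / σ k) ^ 2 + 12 * (ε / σ (k + 1)) ^ 2 := by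
      have h2 : ∀ c, θ c ^ 2 ≤ (if c = c1 then 3 * (Λ / σ k) ^ 2 else 0)
          + (if c = c2 then 3 * (Λ / σ k) ^ 2 else 0)
          + (if c = c3 then 12 * (ε / σ (k + 1)) ^ 2 else 0) := by
        intro c
        simp only [hθ]
        generalize Λ / σ k = a
        generalize ε / σ (k + 1) = b
        split_ifs <;> nlinarith [sq_nonneg a, sq_nonneg b, sq_nonneg (a - b), sq_nonneg (a + b)]
      refine (Finset.sum_le_sum fun c _ => h2 c).trans (le_of_eq ?_)
      simp only [Finset.sum_add_distrib, Finset.sum_ite_eq', m1, m2, m3, if_true]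
      ring
    have h2 : ρ ^ I.card = exp (I.card * log ρ) := by rw [exp_nat_mul, exp_log hρ0]
    have h3 : exp (-1) ≤ (1 / 2 : ℝ) := exp_neg_one_lt_half.le
    have h4 : log ρ ≤ 0 := log_nonpos hρ0.le hρ1
    rw [h2, ← exp_add]
    calc exp (-c) ≤ exp (-1 + (I.card * log ρ + (-2 * I.card - ∑ c ∈ I, θ c ^ 2))) := by
          refine exp_le_exp.2 ?_
          have : (I.card : ℝ) * (2 - log ρ) ≤ 12 * (k + 2 : ℕ) * (4 * W + 3) * (2 - log ρ) :=
            mul_le_mul_of_nonneg_right hI (by linarith)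
          nlinarith
      _ ≤ _ := by rw [exp_add]; gcongr
  · rintro ξ ⟨hin1, hout⟩ z hz y hy
    have hwz : ∀ j, |w j * z| ≤ w j * T := fun j => by
      rw [abs_mul, abs_of_pos (hw j).1]; exact mul_le_mul_of_nonneg_left hz (hw j).1.le
    have hwz' : ∀ j, |w j * z| ≤ T := fun j =>
      (hwz j).trans (mul_le_of_le_one_left hT0 (hw j).2)
    set g := 2 * sin (π * (|z| / P)) * sin (π * (|z| / P) / 3) with hg
    have hprof : HasSum (fun c => θ c * phi q σ w lam c z)
        (Λ * q (w k * z) * g + 2 * ε * q (w (k + 1) * z) * cos (lam (k + 1) * z)) := by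
      have h := ((hasSum_ite_eq c1 (Λ / σ k * phi q σ w lam c1 z)).add
        (hasSum_ite_eq c2 (-(Λ / σ k) * phi q σ w lam c2 z))).add
        (hasSum_ite_eq c3 (2 * (ε / σ (k + 1)) * phi q σ w lam c3 z))
      have e1 : (fun c => θ c * phi q σ w lam c z) = fun c =>
          (if c = c1 then Λ / σ k * phi q σ w lam c1 z else 0)
          + (if c = c2 then -(Λ / σ k) * phi q σ w lam c2 z else 0)
          + (if c = c3 then 2 * (ε / σ (k + 1)) * phi q σ w lam c3 z else 0) := by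
        funext c
        simp only [hθ, add_mul, ite_mul, zero_mul]
        congr 1
        · congr 1 <;> split_ifs with h <;> simp [h]
        · split_ifs with h <;> simp [h]
      have e2 : Λ * q (w k * z) * g + 2 * ε * q (w (k + 1) * z) * cos (lam (k + 1) * z)
          = Λ / σ k * phi q σ w lam c1 z + -(Λ / σ k) * phi q σ w lam c2 z
            + 2 * (ε / σ (k + 1)) * phi q σ w lam c3 z := by
        rw [hg, ← prof_eq hP]
        simp only [phi_apply, hc1, hc2, hc3, om, trig, if_true, Bool.false_eq_true, if_false,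
          one_mul, Int.cast_zero, sub_zero, hlam]
        have := (hσ0 k).ne'
        have := (hσ0 (k + 1)).ne'
        field_simp
        ring
      rw [e1, e2]; exact h
    have err : ∀ r : ℝ, ρ ≤ r →
        (∀ c : Ix, c ∉ I → c.1.1.1 < k + 2 → 1 ≤ r * (1 + |w c.1.1.1 * z - c.2|)) →
        Λ * q (w k * z) * g + 2 * ε * q (w (k + 1) * z) * cos (lam (k + 1) * z) - y ≤ E * r := by
      intro r hr hfar
      have hr0 : 0 < r := hρ0.trans_le hr
      have hS := (SB_I hC0 h1C0 fun j => w j * z).mul (c := C * Lg * r) (by positivity)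
      refine (hS.le (hprof.sub hy) fun c => ?_).trans ?_
      · set V := 1 + |w c.1.1.1 * z - c.2| with hV
        have hV1 : 1 ≤ V := by linarith [abs_nonneg (w c.1.1.1 * z - c.2)]
        have h1 : |phi q σ w lam c z| ≤ σ c.1.1.1 * (C / V ^ 4) := phi_le hq hσ0 c z
        have h2 : θ c * phi q σ w lam c z - ξ c * phi q σ w lam c z
            ≤ |ξ c - θ c| * |phi q σ w lam c z| := by
          rw [← abs_mul, ← sub_mul, abs_mul, abs_sub_comm, ← abs_mul]; exact le_abs_self _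
        refine h2.trans ?_
        have hs0 := hσ0 c.1.1.1
        by_cases hcI : c ∈ I
        · have h3 := hin1 c hcI
          have h4 := sig_le hσ0 hσ1 c.1.1.1
          have h5 : 1 / V ^ 4 ≤ 1 / V ^ 2 :=
            one_div_le_one_div_of_le (by positivity) (pow_le_pow_right₀ hV1 (by norm_num))
          calc _ ≤ r * (σ c.1.1.1 * (C / V ^ 4)) := by gcongr; linarith
            _ = C * 1 * r * (σ c.1.1.1 * (1 / V ^ 4)) := by ring
            _ ≤ _ := by gcongr
        · have h3 : |ξ c - θ c| ≤ Lg * (1 + c.1.1.1) * V := by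
            rw [hθ0 c hcI, sub_zero]
            exact (hout c hcI).trans (t_le hL00 hT0 (hwz' _) _ _)
          have h4 : σ c.1.1.1 * (1 + c.1.1.1) * (1 / V) ≤ (1 / 2) ^ c.1.1.1 * r := by
            by_cases hj : c.1.1.1 < k + 2
            · have h5 : 1 / V ≤ r := by rw [div_le_iff₀ (by positivity)]; exact hfar c hcI hj
              have h6 := hσ1 c.1.1.1
              gcongr
            · have h5 : 1 / V ≤ 1 := by rw [div_le_iff₀ (by positivity)]; linarith
              have h6 := hσ2 c.1.1.1 (by omega)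
              calc _ ≤ (1 / 2) ^ c.1.1.1 * ρ * 1 := by gcongr
                _ ≤ _ := by rw [mul_one]; gcongr
          calc _ ≤ Lg * (1 + c.1.1.1) * V * (σ c.1.1.1 * (C / V ^ 4)) := by gcongr
            _ = C * Lg * (σ c.1.1.1 * (1 + c.1.1.1) * (1 / V)) * (1 / V ^ 2) := by
                field_simp
            _ ≤ C * Lg * ((1 / 2) ^ c.1.1.1 * r) * (1 / V ^ 2) := by gcongr
            _ = _ := by ring
      · calc C * Lg * r * (8 * C0) = 8 * C * C0 * Lg * r := by ring
          _ ≤ E * r := by gcongr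
    have hq2 : 1 ≤ q (w k * z) := hq1 _ ((hwz k).trans hwk)
    have hq3 : q (w k * z) ≤ C := (le_abs_self _).trans ((hq _).trans
      (div_le_self (by linarith) (one_le_pow₀ (by linarith [abs_nonneg (w k * z)]))))
    have hq4 : 1 ≤ q (w (k + 1) * z) := hq1 _ ((hwz _).trans hwk')
    have hcos : 1 / 2 ≤ cos (lam (k + 1) * z) := by
      have h1 : |lam (k + 1) * z| ≤ 1 := by
        rw [abs_mul]; exact (mul_le_mul_of_nonneg_left hz (abs_nonneg _)).trans hlam'
      have h2 := Real.one_sub_sq_div_two_le_cos (x := lam (k + 1) * z)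
      have h3 : (lam (k + 1) * z) ^ 2 ≤ 1 := by
        rw [← sq_abs]; nlinarith [abs_nonneg (lam (k + 1) * z)]
      linarith
    have h3 : ε ≤ 2 * ε * q (w (k + 1) * z) * cos (lam (k + 1) * z) := by
      calc ε = 2 * ε * 1 * (1 / 2) := by ring
        _ ≤ _ := by gcongr
    by_cases hn : ∃ e : ℤ, |e| ≤ 1 ∧ |z - e * P| ≤ W
    · obtain ⟨e, he, hze⟩ := hn
      have h4 := err ρ le_rfl fun c hcI hj => by
        have h5 : ¬ |w c.1.1.1 * (e * P) - c.2| ≤ 2 * W := fun h => hcI (hmem c e hj he h)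
        have h6 : |w c.1.1.1 * (z - e * P)| ≤ W := by
          rw [abs_mul, abs_of_pos (hw _).1]
          exact (mul_le_of_le_one_left (abs_nonneg _) (hw _).2).trans hze
        have h7 : w c.1.1.1 * (e * P) - c.2
            = (w c.1.1.1 * z - c.2) - w c.1.1.1 * (z - e * P) := by ring
        have h8 := abs_sub (w c.1.1.1 * z - c.2) (w c.1.1.1 * (z - e * P))
        rw [← h7] at h8
        push Not at h5
        calc (1 : ℝ) ≤ ρ * W := hρW
          _ ≤ _ := by gcongr; linarith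
      have h5 : -(7 * ((T - P) / P)) ≤ g := by
        refine prof_in (by positivity) (div_nonneg (by linarith) hP.le) ?_
        rw [div_le_iff₀ hP, add_mul, div_mul_cancel₀ _ hP.ne']; linarith
      have h6 : 0 ≤ (T - P) / P := div_nonneg (by linarith) hP.le
      have h7 : -(7 * C * ((T - P) / P)) ≤ q (w k * z) * g := by nlinarith
      have h8 := mul_le_mul_of_nonneg_left h7 hΛ
      nlinarith
    · push Not at hn
      have n0 := hn 0 (by simp)
      have n1 := hn 1 (by simp)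
      have n2 := hn (-1) (by simp)
      simp only [Int.cast_zero, zero_mul, sub_zero, Int.cast_one, one_mul, Int.cast_neg,
        neg_mul, sub_neg_eq_add] at n0 n1 n2
      have h4 := err 1 hρ1 fun c _ _ => by linarith [abs_nonneg (w c.1.1.1 * z - c.2)]
      have h5 : (W / P) ^ 2 ≤ g := by
        refine prof_off (by positivity) (by gcongr) ?_
        rw [div_le_iff₀ hP, sub_mul, div_mul_cancel₀ _ hP.ne', one_mul]
        rcases abs_cases z with h | h <;> rcases abs_cases (z - P) with h' | h' <;>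
          rcases abs_cases (z + P) with h'' | h'' <;> linarith [h.1, h'.1, h''.1, h.2, h'.2, h''.2]
      have h6 : 0 ≤ g := (sq_nonneg _).trans h5
      have h7 : Λ * (W / P) ^ 2 ≤ Λ * q (w k * z) * g := by
        calc Λ * (W / P) ^ 2 = Λ * 1 * (W / P) ^ 2 := by ring
          _ ≤ _ := by gcongr
      linarith

end Pool.Agent.MP_0502fb_pr.H21
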