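import Pool.Agent.MP_0502fb_pr.H21.Field
import Pool.Agent.MP_0502fb_pr.H21.Block

/-!
The comb-shaped spectral measure and the corresponding series.
-/

open MeasureTheory ProbabilityTheory Real Set Filter Topology
open scoped NNReal ENNReal

namespace Pool.Agent.MP_0502fb_pr.H21

/-- Summable with sum at most `S`. -/
def SB {α : Type} (f : α → ℝ) (S : ℝ) : Prop := Summable f ∧ ∑' a, f a ≤ S

lemma SB.mono {α : Type} {f g : α → ℝ} {S : ℝ} (hg : SB g S) (h0 : ∀ a, 0 ≤ f a)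
    (h : ∀ a, f a ≤ g a) : SB f S :=
  have hs := Summable.of_nonneg_of_le h0 h hg.1
  ⟨hs, (hs.tsum_le_tsum h hg.1).trans hg.2⟩

lemma SB.mul {α : Type} {f : α → ℝ} {S : ℝ} (hf : SB f S) {c : ℝ} (hc : 0 ≤ c) :
    SB (fun a => c * f a) (c * S) :=
  ⟨hf.1.mul_left c, by rw [tsum_mul_left]; exact mul_le_mul_of_nonneg_left hf.2 hc⟩

lemma SB.prod {α β : Type} {f : α × β → ℝ} {g : α → ℝ} {S : ℝ} (h0 : ∀ p, 0 ≤ f p)
    (h1 : ∀ a, SB (fun b => f (a, b)) (g a)) (hg : SB g S) : SB f S := by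
  have h2 := hg.mono (f := fun a => ∑' b, f (a, b)) (fun a => tsum_nonneg fun b => h0 _)
    fun a => (h1 a).2
  have hs : Summable f := (summable_prod_of_nonneg h0).2 ⟨fun a => (h1 a).1, h2.1⟩
  exact ⟨hs, by rw [hs.tsum_prod]; exact h2.2⟩

lemma SB.le {α : Type} {f g : α → ℝ} {S a : ℝ} (hg : SB g S) (hf : HasSum f a)
    (h : ∀ c, f c ≤ g c) : a ≤ S := (hasSum_le h hf hg.1.hasSum).trans hg.2

lemma SB_bool (c : ℝ) : SB (fun _ : Bool => c) (2 * c) :=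
  ⟨(hasSum_fintype _).summable, by rw [tsum_fintype]; simp [two_mul]⟩

abbrev Dx := ℕ × Bool
abbrev Ux := Dx × Bool
abbrev Ix := Ux × ℤ

lemma SB_D : SB (fun d : Dx => (1 / 2 : ℝ) ^ d.1) 4 := by
  have h : SB (fun j : ℕ => (1 / 2 : ℝ) ^ j) 2 := ⟨summable_geometric_two, tsum_geometric_two.le⟩
  have h2 := h.mul (c := 2) (by norm_num)
  rw [show (2 : ℝ) * 2 = 4 by norm_num] at h2
  exact SB.prod (fun p => by positivity) (fun a => SB_bool ((1 / 2 : ℝ) ^ a)) h2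

lemma SB_U : SB (fun u : Ux => (1 / 2 : ℝ) ^ u.1.1) 8 := by
  have h2 := SB_D.mul (c := 2) (by norm_num)
  rw [show (2 : ℝ) * 4 = 8 by norm_num] at h2
  exact SB.prod (fun p => by positivity) (fun a => SB_bool ((1 / 2 : ℝ) ^ a.1)) h2

lemma exists_C0 : ∃ C0 : ℝ, 1 ≤ C0 ∧ ∀ u : ℝ, SB (fun i : ℤ => 1 / (1 + |u - i|) ^ 2) C0 := by
  have h1 : Summable fun n : ℕ => 1 / (1 + (n : ℝ)) ^ 2 := by
    have := (summable_nat_add_iff 1).2 (Real.summable_one_div_nat_pow.2 (one_lt_two (α := ℕ)))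
    refine this.congr fun n => ?_
    push_cast; ring
  have h2 : Summable fun m : ℤ => 1 / (1 + |(m : ℝ)|) ^ 2 :=
    Summable.of_nat_of_neg (by simpa using h1) (by simpa using h1)
  refine ⟨max 1 (4 * ∑' m : ℤ, 1 / (1 + |(m : ℝ)|) ^ 2), le_max_left _ _, fun u => ?_⟩
  have h3 : SB (fun i : ℤ => 1 / (1 + |((i - ⌊u⌋ : ℤ) : ℝ)|) ^ 2)
      (∑' m : ℤ, 1 / (1 + |(m : ℝ)|) ^ 2) :=
    ⟨(Equiv.subRight ⌊u⌋).summable_iff.2 h2,
      ((Equiv.subRight ⌊u⌋).tsum_eq fun m : ℤ => 1 / (1 + |(m : ℝ)|) ^ 2).le⟩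
  have h4 := (h3.mul (c := 4) (by norm_num)).mono (f := fun i : ℤ => 1 / (1 + |u - i|) ^ 2)
    (fun i => by positivity) fun i => by
      have h5 : |((i - ⌊u⌋ : ℤ) : ℝ)| ≤ |u - i| + 1 := by
        push_cast
        have := Int.floor_le u
        have := Int.lt_floor_add_one u
        rw [abs_le]
        constructor <;> cases abs_cases (u - i) <;> linarith
      rw [mul_one_div, div_le_div_iff₀ (by positivity) (by positivity)]
      have h6 := abs_nonneg (((i - ⌊u⌋ : ℤ) : ℝ))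
      have h7 := abs_nonneg (u - i)
      nlinarith
  exact ⟨h4.1, h4.2.trans (le_max_right _ _)⟩

/-- A majorant over the whole index set. -/
lemma SB_I {C0 : ℝ} (hC0 : ∀ u : ℝ, SB (fun i : ℤ => 1 / (1 + |u - i|) ^ 2) C0) (h1 : 1 ≤ C0)
    (v : ℕ → ℝ) :
    SB (fun c : Ix => (1 / 2 : ℝ) ^ c.1.1.1 * (1 / (1 + |v c.1.1.1 - c.2|) ^ 2)) (8 * C0) := by
  have h2 := SB_U.mul (c := C0) (by linarith)
  rw [mul_comm] at h2
  refine SB.prod (fun p => by positivity) (fun u => ?_) h2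
  have := (hC0 (v u.1.1)).mul (c := (1 / 2 : ℝ) ^ u.1.1) (by positivity)
  rwa [mul_comm _ C0] at this

noncomputable def om (lam : ℕ → ℝ) (d : Dx) : ℝ := (if d.2 then 2 else 1) * lam d.1

noncomputable def trig (b : Bool) (t : ℝ) : ℝ := if b then cos t else sin t

def sg (b : Bool) : ℝ := if b then 1 else -1

lemma trig_le (b : Bool) (t : ℝ) : |trig b t| ≤ 1 := by
  cases b
  · exact abs_sin_le_one t
  · exact abs_cos_le_one t

lemma trig_cont (b : Bool) : Continuous (trig b) := by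
  cases b
  · exact continuous_sin
  · exact continuous_cos

noncomputable def phi (q : C(ℝ, ℝ)) (σ w lam : ℕ → ℝ) (c : Ix) : C(ℝ, ℝ) :=
  ⟨fun x => σ c.1.1.1 * q (w c.1.1.1 * x - c.2) * trig c.1.2 (om lam c.1.1 * x), by
    have := trig_cont c.1.2
    fun_prop⟩

lemma phi_apply (q : C(ℝ, ℝ)) (σ w lam : ℕ → ℝ) (c : Ix) (x : ℝ) : phi q σ w lam c x
    = σ c.1.1.1 * q (w c.1.1.1 * x - c.2) * trig c.1.2 (om lam c.1.1 * x) := rfl

noncomputable def spec (ν : Measure ℝ) (σ w lam : ℕ → ℝ) : Measure ℝ :=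
  Measure.sum fun u : Ux => ENNReal.ofReal (σ u.1.1 ^ 2 / 2) •
    ν.map (fun η => sg u.2 * om lam u.1 + w u.1.1 * η)

variable {q : C(ℝ, ℝ)} {σ w lam : ℕ → ℝ} {C : ℝ} {ν : Measure ℝ}

lemma phi_le (hq : ∀ v, |q v| ≤ C / (1 + |v|) ^ 4) (hσ0 : ∀ j, 0 < σ j) (c : Ix) (x : ℝ) :
    |phi q σ w lam c x| ≤ σ c.1.1.1 * (C / (1 + |w c.1.1.1 * x - c.2|) ^ 4) := by
  rw [phi_apply, abs_mul, abs_mul, abs_of_pos (hσ0 _)]
  have h1 := trig_le c.1.2 (om lam c.1.1 * x)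
  have h2 := hq (w c.1.1.1 * x - c.2)
  have h3 := hσ0 c.1.1.1
  calc _ ≤ σ c.1.1.1 * (C / (1 + |w c.1.1.1 * x - c.2|) ^ 4) * 1 := by
        have h4 := (abs_nonneg _).trans h2
        gcongr
    _ = _ := mul_one _

lemma sig_le (hσ0 : ∀ j, 0 < σ j) (hσ1 : ∀ j, σ j * (1 + j) ≤ (1 / 2) ^ j) (j : ℕ) :
    σ j ≤ (1 / 2) ^ j := by
  have h := hσ1 j
  have h2 := hσ0 j
  have h3 : (0 : ℝ) ≤ j := Nat.cast_nonneg j
  nlinarith

lemma sig_sq_le (hσ0 : ∀ j, 0 < σ j) (hσ1 : ∀ j, σ j * (1 + j) ≤ (1 / 2) ^ j) (j : ℕ) :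
    σ j ^ 2 ≤ (1 / 2) ^ j := by
  have h := sig_le hσ0 hσ1 j
  have h2 := hσ0 j
  have h3 : (1 / 2 : ℝ) ^ j ≤ 1 := pow_le_one₀ (by norm_num) (by norm_num)
  nlinarith

lemma phi_bound (hq : ∀ v, |q v| ≤ C / (1 + |v|) ^ 4) (hC : 1 ≤ C) (hσ0 : ∀ j, 0 < σ j)
    (hσ1 : ∀ j, σ j * (1 + j) ≤ (1 / 2) ^ j) (hw : ∀ j, 0 < w j ∧ w j ≤ 1) (c : Ix) (x : ℝ) :
    |phi q σ w lam c x| ≤
      C * ((1 / 2 : ℝ) ^ c.1.1.1 * (1 / (1 + |(0 : ℝ) - c.2|) ^ 2)) * (1 + |x|) ^ 2 := by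
  refine (phi_le hq hσ0 c x).trans ?_
  set v := w c.1.1.1 * x - c.2 with hv
  have h1 : |(0 : ℝ) - c.2| ≤ |v| + |x| := by
    have h2 : |w c.1.1.1 * x| ≤ |x| := by
      rw [abs_mul, abs_of_pos (hw _).1]
      exact mul_le_of_le_one_left (abs_nonneg _) (hw _).2
    have h3 : (0 : ℝ) - c.2 = v - w c.1.1.1 * x := by rw [hv]; ring
    rw [h3]
    exact (abs_sub _ _).trans (by linarith)
  have h2 : 1 / (1 + |v|) ^ 4 ≤ 1 / (1 + |(0 : ℝ) - c.2|) ^ 2 * (1 + |x|) ^ 2 := by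
    rw [div_mul_eq_mul_div, div_le_div_iff₀ (by positivity) (by positivity), one_mul, one_mul]
    have h4 : 1 + |(0 : ℝ) - c.2| ≤ (1 + |x|) * (1 + |v|) := by
      nlinarith [abs_nonneg v, abs_nonneg x]
    have h5 : (1 + |v|) ^ 2 ≤ (1 + |v|) ^ 4 :=
      pow_le_pow_right₀ (by linarith [abs_nonneg v]) (by norm_num)
    calc (1 + |(0 : ℝ) - c.2|) ^ 2 ≤ ((1 + |x|) * (1 + |v|)) ^ 2 := by gcongr
      _ = (1 + |x|) ^ 2 * (1 + |v|) ^ 2 := mul_pow _ _ _
      _ ≤ _ := by gcongr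
  have h3 := sig_le hσ0 hσ1 c.1.1.1
  calc σ c.1.1.1 * (C / (1 + |v|) ^ 4) = C * (σ c.1.1.1 * (1 / (1 + |v|) ^ 4)) := by ring
    _ ≤ C * ((1 / 2 : ℝ) ^ c.1.1.1 * (1 / (1 + |(0 : ℝ) - c.2|) ^ 2 * (1 + |x|) ^ 2)) := by
        gcongr
    _ = _ := by ring

lemma spec_finite [IsFiniteMeasure ν] (hσ0 : ∀ j, 0 < σ j)
    (hσ1 : ∀ j, σ j * (1 + j) ≤ (1 / 2) ^ j) : IsFiniteMeasure (spec ν σ w lam) := by
  refine ⟨?_⟩
  rw [spec, Measure.sum_apply _ MeasurableSet.univ]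
  have e : ∀ u : Ux, (ENNReal.ofReal (σ u.1.1 ^ 2 / 2) •
      ν.map (fun η => sg u.2 * om lam u.1 + w u.1.1 * η)) univ
      = ENNReal.ofReal (σ u.1.1 ^ 2 / 2) * ν univ := by
    intro u
    rw [Measure.smul_apply, Measure.map_apply (by fun_prop) MeasurableSet.univ, preimage_univ,
      smul_eq_mul]
  simp only [e]
  have hs : Summable fun u : Ux => σ u.1.1 ^ 2 / 2 :=
    (SB_U.mono (fun u => by positivity) fun u => by
      have := sig_sq_le hσ0 hσ1 u.1.1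
      have := sq_nonneg (σ u.1.1)
      linarith).1
  rw [ENNReal.tsum_mul_right, ← ENNReal.ofReal_tsum_of_nonneg (fun u => by positivity) hs]
  exact ENNReal.mul_lt_top ENNReal.ofReal_lt_top (measure_lt_top _ _)

lemma spec_ac (hν : ν ≪ volume) (hw : ∀ j, 0 < w j ∧ w j ≤ 1) : spec ν σ w lam ≪ volume := by
  refine Measure.absolutelyContinuous_sum_left fun u => ?_
  exact Measure.smul_absolutelyContinuous.trans (ac_affine hν (hw _).1.ne' _)

lemma spec_hasSum [IsFiniteMeasure (spec ν σ w lam)] {h : ℝ → ℝ} (hc : Continuous h) (B : ℝ)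
    (hB : ∀ η, ‖h η‖ ≤ B) :
    HasSum (fun u : Ux => σ u.1.1 ^ 2 / 2 * ∫ η, h (sg u.2 * om lam u.1 + w u.1.1 * η) ∂ν)
      (∫ η, h η ∂spec ν σ w lam) := by
  have H := hasSum_integral_measure (int_bdd (spec ν σ w lam) hc B hB)
  have e : ∀ u : Ux, ∫ η, h η ∂(ENNReal.ofReal (σ u.1.1 ^ 2 / 2) •
      ν.map (fun η => sg u.2 * om lam u.1 + w u.1.1 * η))
      = σ u.1.1 ^ 2 / 2 * ∫ η, h (sg u.2 * om lam u.1 + w u.1.1 * η) ∂ν := by
    intro u
    rw [integral_smul_measure, integral_map (by fun_prop) hc.aestronglyMeasurable,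
      ENNReal.toReal_ofReal (by positivity), smul_eq_mul]
  simp only [e] at H
  exact H

lemma spec_sin [IsFiniteMeasure ν] [IsFiniteMeasure (spec ν σ w lam)]
    (hsin : ∀ t, ∫ η, sin (η * t) ∂ν = 0) (t : ℝ) : ∫ η, sin (η * t) ∂spec ν σ w lam = 0 := by
  have H := spec_hasSum (ν := ν) (σ := σ) (w := w) (lam := lam) (h := fun η => sin (η * t))
    (by fun_prop) 1 fun _ => abs_sin_le_one _
  have e : ∀ a b : ℝ, ∫ η, sin ((a + b * η) * t) ∂ν = sin (a * t) * ∫ η, cos (η * (b * t)) ∂ν := by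
    intro a b
    have : ∀ η, sin ((a + b * η) * t)
        = sin (a * t) * cos (η * (b * t)) + cos (a * t) * sin (η * (b * t)) := by
      intro η; rw [← sin_add]; congr 1; ring
    simp only [this]
    rw [integral_add ((int_cos ν _).const_mul _) ((int_sin ν _).const_mul _), integral_const_mul,
      integral_const_mul, hsin]
    ring
  simp only [e] at H
  refine (H.prod_fiberwise (g := fun _ => 0) fun d => ?_).unique hasSum_zero
  have := hasSum_fintype fun b : Bool => σ d.1 ^ 2 / 2 *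
    (sin (sg b * om lam d * t) * ∫ η, cos (η * (w d.1 * t)) ∂ν)
  simp only [Fintype.sum_bool, sg, if_true, Bool.false_eq_true, if_false, neg_mul, one_mul,
    sin_neg, mul_neg, add_neg_cancel] at this
  exact this

lemma spec_kernel [IsFiniteMeasure ν] [IsFiniteMeasure (spec ν σ w lam)]
    (hq : ∀ v, |q v| ≤ C / (1 + |v|) ^ 4) (hC : 1 ≤ C) (hσ0 : ∀ j, 0 < σ j)
    (hσ1 : ∀ j, σ j * (1 + j) ≤ (1 / 2) ^ j) (hw : ∀ j, 0 < w j ∧ w j ≤ 1)
    (hsin : ∀ t, ∫ η, sin (η * t) ∂ν = 0)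
    (hK : ∀ x y, HasSum (fun i : ℤ => q (x - i) * q (y - i)) (∫ η, cos (η * (x - y)) ∂ν))
    (x y : ℝ) : HasSum (fun c => phi q σ w lam c x * phi q σ w lam c y)
      (∫ η, cos (η * (x - y)) ∂spec ν σ w lam) := by
  obtain ⟨C0, hC0, hS⟩ := exists_C0
  have hs : Summable fun c => phi q σ w lam c x * phi q σ w lam c y := by
    refine Summable.of_norm_bounded
      ((((SB_I hS hC0 fun _ => 0).1.mul_left C).mul_right ((1 + |x|) ^ 2)).mul_right C) fun c => ?_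
    rw [Real.norm_eq_abs, abs_mul]
    have h1 := phi_bound (lam := lam) hq hC hσ0 hσ1 hw c x
    have h2 : |phi q σ w lam c y| ≤ C := by
      refine (phi_le hq hσ0 c y).trans ?_
      have h3 : σ c.1.1.1 ≤ 1 :=
        (sig_le hσ0 hσ1 _).trans (pow_le_one₀ (by norm_num) (by norm_num))
      have h4 : C / (1 + |w c.1.1.1 * y - c.2|) ^ 4 ≤ C :=
        div_le_self (by linarith) (one_le_pow₀ (by linarith [abs_nonneg (w c.1.1.1 * y - c.2)]))
      calc _ ≤ 1 * C := by gcongr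
        _ = C := one_mul C
    gcongr
  have H1 : HasSum (fun d : Dx => σ d.1 ^ 2 * (cos (om lam d * (x - y)) *
      ∫ η, cos (η * (w d.1 * (x - y))) ∂ν)) (∑' c, phi q σ w lam c x * phi q σ w lam c y) := by
    have h1 := hs.hasSum.prod_fiberwise (g := fun u : Ux => σ u.1.1 ^ 2 *
        (trig u.2 (om lam u.1 * x) * trig u.2 (om lam u.1 * y)) *
        ∫ η, cos (η * (w u.1.1 * (x - y))) ∂ν) fun u => by
      have h2 := (hK (w u.1.1 * x) (w u.1.1 * y)).mul_left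
        (σ u.1.1 ^ 2 * (trig u.2 (om lam u.1 * x) * trig u.2 (om lam u.1 * y)))
      rw [← mul_sub] at h2
      have e : (fun i : ℤ => phi q σ w lam (u, i) x * phi q σ w lam (u, i) y) = fun i : ℤ =>
          σ u.1.1 ^ 2 * (trig u.2 (om lam u.1 * x) * trig u.2 (om lam u.1 * y)) *
            (q (w u.1.1 * x - i) * q (w u.1.1 * y - i)) := by
        funext i; simp only [phi_apply]; ring
      rw [e]; exact h2
    refine h1.prod_fiberwise fun d => ?_
    have := hasSum_fintype fun b : Bool => σ d.1 ^ 2 *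
        (trig b (om lam d * x) * trig b (om lam d * y)) * ∫ η, cos (η * (w d.1 * (x - y))) ∂ν
    rw [Fintype.sum_bool] at this
    have e : σ d.1 ^ 2 * (cos (om lam d * (x - y)) * ∫ η, cos (η * (w d.1 * (x - y))) ∂ν)
        = σ d.1 ^ 2 * (trig true (om lam d * x) * trig true (om lam d * y)) *
          ∫ η, cos (η * (w d.1 * (x - y))) ∂ν + σ d.1 ^ 2 *
          (trig false (om lam d * x) * trig false (om lam d * y)) *
          ∫ η, cos (η * (w d.1 * (x - y))) ∂ν := by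
      simp only [trig, if_true, Bool.false_eq_true, if_false]
      rw [mul_sub (om lam d), cos_sub]; ring
    rw [e]; exact this
  have H := spec_hasSum (ν := ν) (σ := σ) (w := w) (lam := lam) (h := fun η => cos (η * (x - y)))
    (by fun_prop) 1 fun _ => abs_cos_le_one _
  have e : ∀ a b t : ℝ,
      ∫ η, cos ((a + b * η) * t) ∂ν = cos (a * t) * ∫ η, cos (η * (b * t)) ∂ν := by
    intro a b t
    have : ∀ η, cos ((a + b * η) * t)
        = cos (a * t) * cos (η * (b * t)) - sin (a * t) * sin (η * (b * t)) := by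
      intro η; rw [← cos_add]; congr 1; ring
    simp only [this]
    rw [integral_sub ((int_cos ν _).const_mul _) ((int_sin ν _).const_mul _), integral_const_mul,
      integral_const_mul, hsin]
    ring
  simp only [e] at H
  have H2 := H.prod_fiberwise (g := fun d : Dx => σ d.1 ^ 2 * (cos (om lam d * (x - y)) *
      ∫ η, cos (η * (w d.1 * (x - y))) ∂ν)) fun d => by
    have := hasSum_fintype fun b : Bool => σ d.1 ^ 2 / 2 *
      (cos (sg b * om lam d * (x - y)) * ∫ η, cos (η * (w d.1 * (x - y))) ∂ν)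
    simp only [Fintype.sum_bool, sg, if_true, Bool.false_eq_true, if_false, neg_mul, one_mul,
      cos_neg, ← add_mul, add_halves] at this
    exact this
  rw [← H1.unique H2]
  exact hs.hasSum

lemma spec_lower [IsFiniteMeasure ν] [IsFiniteMeasure (spec ν σ w lam)]
    (hsupp : ∀ᵐ η ∂ν, |η| ≤ 1) (hν1 : 1 ≤ ν.real univ) (hw : ∀ j, 0 < w j ∧ w j ≤ 1)
    (j : ℕ) {δ : ℝ} (h0 : 0 ≤ lam j) (hδ : lam j + w j ≤ δ) :
    σ j ^ 2 / 2 ≤ (spec ν σ w lam).real (Icc (-δ) δ) := by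
  have h1 : (ENNReal.ofReal (σ j ^ 2 / 2) • ν.map (fun η => sg true * om lam (j, false) + w j * η))
      (Icc (-δ) δ) ≤ spec ν σ w lam (Icc (-δ) δ) :=
    Measure.le_sum (fun u : Ux => ENNReal.ofReal (σ u.1.1 ^ 2 / 2) •
      ν.map (fun η => sg u.2 * om lam u.1 + w u.1.1 * η)) ((j, false), true) _
  rw [Measure.smul_apply, Measure.map_apply (by fun_prop) measurableSet_Icc, smul_eq_mul] at h1
  have h2 : ν univ ≤ ν ((fun η => sg true * om lam (j, false) + w j * η) ⁻¹' Icc (-δ) δ) := by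
    refine measure_mono_ae ?_
    filter_upwards [hsupp] with η hη _
    have h3 := hw j
    obtain ⟨h4, h5⟩ := abs_le.1 hη
    simp only [sg, om, if_true, Bool.false_eq_true, if_false, one_mul]
    constructor <;> nlinarith [h3.1, h3.2]
  have h3 := ENNReal.toReal_mono (measure_ne_top _ _) ((mul_le_mul_right h2 _).trans h1)
  rw [ENNReal.toReal_mul, ENNReal.toReal_ofReal (by positivity)] at h3
  calc σ j ^ 2 / 2 = σ j ^ 2 / 2 * 1 := (mul_one _).symm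
    _ ≤ σ j ^ 2 / 2 * (ν univ).toReal := by gcongr; exact hν1
    _ ≤ _ := h3

lemma spec_upper [IsFiniteMeasure ν] [IsFiniteMeasure (spec ν σ w lam)]
    (hsupp : ∀ᵐ η ∂ν, |η| ≤ 1) {h : ℝ → ℝ} (hc : Continuous h) (B : ℝ) (hB : ∀ η, ‖h η‖ ≤ B)
    {a : ℝ} (ha : 0 ≤ a) (hh : ∀ (u : Ux) (η : ℝ), |η| ≤ 1 →
      σ u.1.1 ^ 2 * h (sg u.2 * om lam u.1 + w u.1.1 * η) ≤ a * (1 / 2) ^ u.1.1) :
    ∫ η, h η ∂spec ν σ w lam ≤ 4 * a * ν.real univ := by
  have H := spec_hasSum (ν := ν) (σ := σ) (w := w) (lam := lam) hc B hB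
  have h2 := SB_U.mul (c := a / 2 * ν.real univ) (by positivity)
  refine (h2.le H fun u => ?_).trans (le_of_eq (by ring))
  rw [← integral_const_mul]
  have h3 : ∫ _, a / 2 * (1 / 2 : ℝ) ^ u.1.1 ∂ν = a / 2 * ν.real univ * (1 / 2) ^ u.1.1 := by
    rw [integral_const, smul_eq_mul]; ring
  rw [← h3]
  refine integral_mono_ae ((int_bdd ν (by fun_prop) B fun η => hB _).const_mul _)
    (integrable_const _) ?_
  filter_upwards [hsupp] with η hη
  have := hh u η hη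
  linarith

end Pool.Agent.MP_0502fb_pr.H21
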